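import Mathlib

/-!
A commutator identity for sums of commuting flips on a weighted finite set.
-/

set_option linter.unusedSectionVars false

open Finset

namespace Pool.Agent.Helper54.SL

variable {Ω ι : Type*} [Fintype Ω] [Fintype ι] [DecidableEq ι]

/-- Half the difference of the two flips. -/
noncomputable def Xop (U W : ι → Ω → Ω) (i : ι) (F : Ω → ℝ) (ω : Ω) : ℝ :=
  (F (U i ω) - F (W i ω)) / 2

/-- The odd part for the double flip. -/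
noncomputable def Pop (U W : ι → Ω → Ω) (i : ι) (F : Ω → ℝ) (ω : Ω) : ℝ :=
  (F ω - F (U i (W i ω))) / 2

/-- The hypotheses on the weight and the flips. -/
structure Flips (U W : ι → Ω → Ω) (K : Ω → ℝ) (ρ : ι → Ω → ℝ) : Prop where
  Kpos : ∀ ω, 0 ≤ K ω
  ρpos : ∀ i ω, 0 < ρ i ω
  UU : ∀ i ω, U i (U i ω) = ω
  WW : ∀ i ω, W i (W i ω) = ω
  UUc : ∀ i j ω, U i (U j ω) = U j (U i ω)
  WWc : ∀ i j ω, W i (W j ω) = W j (W i ω)
  UWc : ∀ i j ω, U i (W j ω) = W j (U i ω)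
  KU : ∀ i ω, K (U i ω) = ρ i ω * K ω
  KW : ∀ i ω, K (W i ω) = ρ i ω * K ω
  ρU : ∀ i j ω, i ≠ j → ρ i (U j ω) = ρ i ω
  ρW : ∀ i j ω, i ≠ j → ρ i (W j ω) = ρ i ω
  ρUs : ∀ i ω, ρ i (U i ω) = (ρ i ω)⁻¹
  ρWs : ∀ i ω, ρ i (W i ω) = (ρ i ω)⁻¹

variable {U W : ι → Ω → Ω} {K : Ω → ℝ} {ρ : ι → Ω → ℝ}

lemma sum_inv (V : Ω → Ω) (hV : ∀ ω, V (V ω) = ω) (g : Ω → ℝ) : ∑ ω, g (V ω) = ∑ ω, g ω :=
  Equiv.sum_comp (⟨V, V, hV, hV⟩ : Equiv.Perm Ω) g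

namespace Flips

/-- The adjoint of `X_i` is `ρ_i X_i`. -/
lemma adj (h : Flips U W K ρ) (i : ι) (G H : Ω → ℝ) :
    ∑ ω, K ω * (G ω * Xop U W i H ω) = ∑ ω, K ω * (ρ i ω * (Xop U W i G ω * H ω)) := by
  have h1 : ∑ ω, K ω * (G ω * H (U i ω)) = ∑ ω, K ω * (ρ i ω * (G (U i ω) * H ω)) := by
    rw [← sum_inv (U i) (h.UU i)]
    refine sum_congr rfl fun ω _ => ?_
    rw [h.UU, h.KU]
    ring
  have h2 : ∑ ω, K ω * (G ω * H (W i ω)) = ∑ ω, K ω * (ρ i ω * (G (W i ω) * H ω)) := by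
    rw [← sum_inv (W i) (h.WW i)]
    refine sum_congr rfl fun ω _ => ?_
    rw [h.WW, h.KW]
    ring
  unfold Xop
  have e1 : ∀ ω, K ω * (G ω * ((H (U i ω) - H (W i ω)) / 2)) =
      (1 / 2) * (K ω * (G ω * H (U i ω))) - (1 / 2) * (K ω * (G ω * H (W i ω))) := by
    intro ω; ring
  have e2 : ∀ ω, K ω * (ρ i ω * ((G (U i ω) - G (W i ω)) / 2 * H ω)) =
      (1 / 2) * (K ω * (ρ i ω * (G (U i ω) * H ω))) -
        (1 / 2) * (K ω * (ρ i ω * (G (W i ω) * H ω))) := by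
    intro ω; ring
  simp only [e1, e2, sum_sub_distrib, ← mul_sum, h1, h2]

lemma Xcomm (h : Flips U W K ρ) (i j : ι) (F : Ω → ℝ) (ω : Ω) :
    Xop U W i (Xop U W j F) ω = Xop U W j (Xop U W i F) ω := by
  unfold Xop
  rw [h.UUc i j ω, h.WWc i j ω, h.UWc i j ω, h.UWc j i ω]
  ring

lemma Xρ (h : Flips U W K ρ) {i j : ι} (hij : i ≠ j) (G : Ω → ℝ) (ω : Ω) :
    Xop U W j (fun ω => ρ i ω * G ω) ω = ρ i ω * Xop U W j G ω := by
  unfold Xop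
  simp only
  rw [h.ρU i j ω hij, h.ρW i j ω hij]
  ring

/-- The off-diagonal terms. -/
lemma offdiag (h : Flips U W K ρ) {i j : ι} (hij : i ≠ j) (F : Ω → ℝ) :
    ∑ ω, K ω * (Xop U W i F ω * Xop U W j F ω + F ω * Xop U W i (Xop U W j F) ω) =
      ∑ ω, K ω * (1 / 2 * (((1 + ρ i ω) * Xop U W i F ω) * ((1 + ρ j ω) * Xop U W j F ω))) := by
  have hB1 : ∑ ω, K ω * (F ω * Xop U W i (Xop U W j F) ω) =
      ∑ ω, K ω * (ρ i ω * (Xop U W i F ω * Xop U W j F ω)) := h.adj i F (Xop U W j F)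
  have hB2 : ∑ ω, K ω * (F ω * Xop U W i (Xop U W j F) ω) =
      ∑ ω, K ω * (ρ j ω * (Xop U W j F ω * Xop U W i F ω)) := by
    rw [← h.adj j F (Xop U W i F)]
    refine sum_congr rfl fun ω _ => ?_
    rw [h.Xcomm i j]
  have hA : ∑ ω, K ω * (Xop U W i F ω * Xop U W j F ω) =
      ∑ ω, K ω * (ρ i ω * ρ j ω * (Xop U W i F ω * Xop U W j F ω)) := by
    rw [h.adj j (Xop U W i F) F]
    have e1 : ∑ ω, K ω * (ρ i ω * ρ j ω * (Xop U W i F ω * Xop U W j F ω)) =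
        ∑ ω, K ω * (ρ i ω * (Xop U W i F ω * (ρ j ω * Xop U W j F ω))) :=
      sum_congr rfl fun ω _ => by ring
    rw [e1, ← h.adj i F (fun ω => ρ j ω * Xop U W j F ω)]
    refine sum_congr rfl fun ω _ => ?_
    rw [h.Xρ hij.symm, h.Xcomm i j]
    ring
  have e2 : ∀ ω, K ω * (1 / 2 * (((1 + ρ i ω) * Xop U W i F ω) * ((1 + ρ j ω) * Xop U W j F ω))) =
      1 / 2 * (K ω * (Xop U W i F ω * Xop U W j F ω)) +
      1 / 2 * (K ω * (ρ i ω * ρ j ω * (Xop U W i F ω * Xop U W j F ω))) +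
      1 / 2 * (K ω * (ρ i ω * (Xop U W i F ω * Xop U W j F ω))) +
      1 / 2 * (K ω * (ρ j ω * (Xop U W j F ω * Xop U W i F ω))) := by
    intro ω; ring
  simp only [e2, mul_add, sum_add_distrib, ← mul_sum, ← hB1, ← hB2, ← hA]
  ring

/-- The diagonal terms. -/
lemma diag (h : Flips U W K ρ) (i : ι) (F : Ω → ℝ) :
    ∑ ω, K ω * (Xop U W i F ω * Xop U W i F ω + F ω * Xop U W i (Xop U W i F) ω) =
      ∑ ω, K ω * (1 / 2 * (((1 + ρ i ω) * Xop U W i F ω) * ((1 + ρ i ω) * Xop U W i F ω))) +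
      ∑ ω, K ω * (1 / 2 * ((ρ i ω - (ρ i ω)⁻¹) * (Pop U W i F ω) ^ 2)) := by
  have hXX : ∀ ω, Xop U W i (Xop U W i F) ω = Pop U W i F ω := by
    intro ω
    unfold Xop Pop
    rw [h.UU, h.WW, ← h.UWc i i ω]
    ring
  have hXU : ∀ ω, (Xop U W i F (U i ω)) = Pop U W i F ω := by
    intro ω
    unfold Xop Pop
    rw [h.UU, ← h.UWc i i ω]
  have hV : ∀ ω, U i (W i (U i (W i ω))) = ω := by
    intro ω
    rw [← h.UWc i i (W i ω), h.WW, h.UU]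
  have hKV : ∀ ω, K (U i (W i ω)) = K ω := by
    intro ω
    rw [h.KU, h.KW, h.ρWs, ← mul_assoc, inv_mul_cancel₀ (h.ρpos i ω).ne', one_mul]
  have hPV : ∀ ω, Pop U W i F (U i (W i ω)) = - Pop U W i F ω := by
    intro ω
    unfold Pop
    rw [hV]
    ring
  have hFP : ∑ ω, K ω * (F ω * Pop U W i F ω) = ∑ ω, K ω * (Pop U W i F ω) ^ 2 := by
    have h1 : ∑ ω, K ω * (F ω * Pop U W i F ω) =
        - ∑ ω, K ω * (F (U i (W i ω)) * Pop U W i F ω) := by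
      rw [← sum_inv (fun ω => U i (W i ω)) hV]
      rw [← sum_neg_distrib]
      refine sum_congr rfl fun ω _ => ?_
      rw [hKV, hPV]
      ring
    have h2 : ∑ ω, K ω * (Pop U W i F ω) ^ 2 =
        1 / 2 * ∑ ω, K ω * (F ω * Pop U W i F ω) -
          1 / 2 * ∑ ω, K ω * (F (U i (W i ω)) * Pop U W i F ω) := by
      rw [mul_sum, mul_sum, ← sum_sub_distrib]
      refine sum_congr rfl fun ω _ => ?_
      unfold Pop
      ring
    rw [h2]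
    linarith
  have hA : ∑ ω, K ω * (Xop U W i F ω * Xop U W i F ω) =
      ∑ ω, K ω * (ρ i ω * (Pop U W i F ω) ^ 2) := by
    rw [← sum_inv (U i) (h.UU i)]
    refine sum_congr rfl fun ω _ => ?_
    rw [hXU, h.KU]
    ring
  have hC : ∑ ω, K ω * (1 / 2 * (((1 + ρ i ω) * Xop U W i F ω) * ((1 + ρ i ω) * Xop U W i F ω))) =
      ∑ ω, K ω * (1 / 2 * (ρ i ω + 2 + (ρ i ω)⁻¹) * (Pop U W i F ω) ^ 2) := by
    rw [← sum_inv (U i) (h.UU i)]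
    refine sum_congr rfl fun ω _ => ?_
    rw [hXU, h.KU, h.ρUs]
    have := (h.ρpos i ω).ne'
    field_simp
    ring
  rw [hC]
  simp only [hXX, mul_add, sum_add_distrib]
  rw [hA, hFP, ← sum_add_distrib, ← sum_add_distrib]
  refine sum_congr rfl fun ω _ => ?_
  ring

/-- The commutator identity. -/
theorem main (h : Flips U W K ρ) (F : Ω → ℝ) :
    ∑ ω, K ω * ((∑ i, Xop U W i F ω) ^ 2 + F ω * ∑ i, ∑ j, Xop U W i (Xop U W j F) ω) =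
      ∑ ω, K ω * (1 / 2 * (∑ i, (1 + ρ i ω) * Xop U W i F ω) ^ 2) +
      ∑ i, ∑ ω, K ω * (1 / 2 * ((ρ i ω - (ρ i ω)⁻¹) * (Pop U W i F ω) ^ 2)) := by
  have e1 : ∑ ω, K ω * ((∑ i, Xop U W i F ω) ^ 2 + F ω * ∑ i, ∑ j, Xop U W i (Xop U W j F) ω) =
      ∑ i, ∑ j, ∑ ω, K ω * (Xop U W i F ω * Xop U W j F ω + F ω * Xop U W i (Xop U W j F) ω) := by
    have : ∀ ω, K ω * ((∑ i, Xop U W i F ω) ^ 2 + F ω * ∑ i, ∑ j, Xop U W i (Xop U W j F) ω) =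
        ∑ i, ∑ j, K ω * (Xop U W i F ω * Xop U W j F ω + F ω * Xop U W i (Xop U W j F) ω) := by
      intro ω
      rw [sq, sum_mul_sum, mul_sum, ← sum_add_distrib, mul_sum]
      refine sum_congr rfl fun i _ => ?_
      rw [mul_sum, ← sum_add_distrib, mul_sum]
    simp only [this]
    rw [sum_comm]
    refine sum_congr rfl fun i _ => ?_
    rw [sum_comm]
  have e2 : ∑ ω, K ω * (1 / 2 * (∑ i, (1 + ρ i ω) * Xop U W i F ω) ^ 2) =
      ∑ i, ∑ j, ∑ ω, K ω * (1 / 2 * (((1 + ρ i ω) * Xop U W i F ω) *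
        ((1 + ρ j ω) * Xop U W j F ω))) := by
    have : ∀ ω, K ω * (1 / 2 * (∑ i, (1 + ρ i ω) * Xop U W i F ω) ^ 2) =
        ∑ i, ∑ j, K ω * (1 / 2 * (((1 + ρ i ω) * Xop U W i F ω) *
        ((1 + ρ j ω) * Xop U W j F ω))) := by
      intro ω
      rw [sq, sum_mul_sum, mul_sum, mul_sum]
      refine sum_congr rfl fun i _ => ?_
      rw [mul_sum, mul_sum]
    simp only [this]
    rw [sum_comm]
    refine sum_congr rfl fun i _ => ?_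
    rw [sum_comm]
  rw [e1, e2, ← sum_add_distrib]
  refine sum_congr rfl fun i _ => ?_
  rw [← Finset.add_sum_erase _ _ (mem_univ i), ← Finset.add_sum_erase (a := i) univ
    (fun j => ∑ ω, K ω * (1 / 2 * (((1 + ρ i ω) * Xop U W i F ω) *
        ((1 + ρ j ω) * Xop U W j F ω)))) (mem_univ i), h.diag i F]
  have e3 : ∑ j ∈ univ.erase i, ∑ ω, K ω * (Xop U W i F ω * Xop U W j F ω +
        F ω * Xop U W i (Xop U W j F) ω) =
      ∑ j ∈ univ.erase i, ∑ ω, K ω * (1 / 2 * (((1 + ρ i ω) * Xop U W i F ω) *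
        ((1 + ρ j ω) * Xop U W j F ω))) := by
    refine sum_congr rfl fun j hj => ?_
    exact h.offdiag (ne_of_mem_erase hj).symm F
  rw [e3]
  ring

/-- The lower bound. -/
theorem lower (h : Flips U W K ρ) (F : Ω → ℝ) (a : ℝ)
    (ha : ∀ i ω, -(2 * a) ≤ ρ i ω - (ρ i ω)⁻¹) :
    -(a * ∑ i, ∑ ω, K ω * (Pop U W i F ω) ^ 2) ≤
    ∑ ω, K ω * ((∑ i, Xop U W i F ω) ^ 2 + F ω * ∑ i, ∑ j, Xop U W i (Xop U W j F) ω) := by
  rw [h.main F]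
  have h1 : 0 ≤ ∑ ω, K ω * (1 / 2 * (∑ i, (1 + ρ i ω) * Xop U W i F ω) ^ 2) :=
    sum_nonneg fun ω _ => mul_nonneg (h.Kpos ω) (by positivity)
  have h2 : -(a * ∑ i, ∑ ω, K ω * (Pop U W i F ω) ^ 2) ≤
      ∑ i, ∑ ω, K ω * (1 / 2 * ((ρ i ω - (ρ i ω)⁻¹) * (Pop U W i F ω) ^ 2)) := by
    rw [mul_sum, ← sum_neg_distrib]
    refine sum_le_sum fun i _ => ?_
    rw [mul_sum, ← sum_neg_distrib]
    refine sum_le_sum fun ω _ => ?_
    have h3 : 0 ≤ K ω * (Pop U W i F ω) ^ 2 := mul_nonneg (h.Kpos ω) (sq_nonneg _)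
    have h4 := ha i ω
    nlinarith
  linarith

end Flips

end Pool.Agent.Helper54.SL
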