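import Pool.Agent.Helper54.SL.RealGrowth
import Pool.Agent.Helper54.MB.Main
import Pool.Agent.Helper40.MB.Im

/-!
The bound on the Laplacian in `L^4` with the square root of the logarithm.
-/

open Finset
open scoped ENNReal

namespace Pool.Agent.Helper54.SL

open Pool.Agent.Helper54.MB

variable {n : ℕ}

lemma re_two_point (a b : ℂ) : 0 ≤ ((phi 2 a - phi 2 b) * (a - b)).re := by
  unfold phi
  have h1 : 2 * 2 - 2 = 2 := rfl
  simp only [h1]
  set r := ‖a‖ with hr
  set s := ‖b‖ with hs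
  have hr0 : 0 ≤ r := norm_nonneg a
  have hs0 : 0 ≤ s := norm_nonneg b
  have hr2 : r ^ 2 = a.re * a.re + a.im * a.im := by
    rw [hr, ← Complex.normSq_apply, Complex.normSq_eq_norm_sq]
  have hs2 : s ^ 2 = b.re * b.re + b.im * b.im := by
    rw [hs, ← Complex.normSq_apply, Complex.normSq_eq_norm_sq]
  have hPrs : a.re * b.re + a.im * b.im ≤ r * s := by
    apply le_of_sq_le_sq _ (by positivity)
    rw [mul_pow, hr2, hs2]
    nlinarith [sq_nonneg (a.re * b.im - a.im * b.re)]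
  have e1 : (((r : ℂ) ^ 2 * star a - (s : ℂ) ^ 2 * star b) * (a - b)).re
      = r ^ 2 * (a.re * a.re + a.im * a.im) + s ^ 2 * (b.re * b.re + b.im * b.im) -
        (r ^ 2 + s ^ 2) * (a.re * b.re + a.im * b.im) := by
    have e2 : (r : ℂ) ^ 2 = ((r ^ 2 : ℝ) : ℂ) := by push_cast; rfl
    have e3 : (s : ℂ) ^ 2 = ((s ^ 2 : ℝ) : ℂ) := by push_cast; rfl
    have e4 : star a = (starRingEnd ℂ) a := rfl
    have e5 : star b = (starRingEnd ℂ) b := rfl
    rw [e2, e3, e4, e5]
    simp only [Complex.mul_re, Complex.sub_re, Complex.sub_im, Complex.mul_im, Complex.ofReal_re,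
      Complex.ofReal_im, Complex.conj_re, Complex.conj_im]
    ring
  rw [e1, ← hr2, ← hs2]
  have h3 : (r ^ 2 + s ^ 2) * (a.re * b.re + a.im * b.im) ≤ (r ^ 2 + s ^ 2) * (r * s) :=
    mul_le_mul_of_nonneg_left hPrs (by positivity)
  have h4 : 0 ≤ (r - s) ^ 2 * (r ^ 2 + r * s + s ^ 2) := by positivity
  nlinarith

/-- The Laplacian is accretive in `L^4`. -/
lemma re_nonneg (u : (Fin n → Bool) → ℂ) : 0 ≤ (∑ x, phi 2 (u x) * lap u x).re := by
  have h1 : ∑ x, phi 2 (u x) * lap u x =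
      (((1 / 4 : ℝ) : ℂ)) *
        ∑ i, ∑ x, (phi 2 (u x) - phi 2 (u (flp i x))) * (u x - u (flp i x)) := by
    have h2 : ∀ i, ∑ x, phi 2 (u (flp i x)) * (u x - u (flp i x)) =
        - ∑ x, phi 2 (u x) * (u x - u (flp i x)) := by
      intro i
      have h3 := sum_flp i (fun x => phi 2 (u x) * (u (flp i x) - u x))
      simp only [flp_flp] at h3
      rw [h3, ← sum_neg_distrib]
      refine sum_congr rfl fun x _ => by ring
    have h4 : ∀ i, ∑ x, (phi 2 (u x) - phi 2 (u (flp i x))) * (u x - u (flp i x)) =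
        2 * ∑ x, phi 2 (u x) * (u x - u (flp i x)) := by
      intro i
      have : ∀ x, (phi 2 (u x) - phi 2 (u (flp i x))) * (u x - u (flp i x)) =
          phi 2 (u x) * (u x - u (flp i x)) - phi 2 (u (flp i x)) * (u x - u (flp i x)) := by
        intro x; ring
      simp only [this]
      rw [sum_sub_distrib, h2]
      ring
    simp only [h4]
    unfold lap
    simp only [mul_sum]
    rw [sum_comm]
    refine sum_congr rfl fun i _ => sum_congr rfl fun x _ => ?_
    push_cast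
    ring
  rw [h1, Complex.re_ofReal_mul, Complex.re_sum]
  apply mul_nonneg (by norm_num)
  refine sum_nonneg fun i _ => ?_
  rw [Complex.re_sum]
  exact sum_nonneg fun x _ => re_two_point _ _

/-- Contraction. -/
lemma contraction (c : Finset (Fin n) → ℂ) {t : ℝ} (ht : 0 ≤ t) :
    Nm 2 (evo c ((t : ℂ) * (-1))) ≤ Nm 2 (evo c 0) := by
  have hder := fun s : ℝ => hasDerivAt_Nm 2 (by norm_num) c (-1) s
  have hanti : Antitone (fun s : ℝ => Nm 2 (evo c ((s : ℂ) * (-1)))) := by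
    apply antitone_of_deriv_nonpos (fun s => (hder s).differentiableAt)
    intro s
    rw [(hder s).deriv]
    have h1 := re_nonneg (evo c ((s : ℂ) * (-1)))
    have h2 : ((-1 : ℂ) * ∑ x, phi 2 (evo c ((s : ℂ) * (-1)) x) *
        lap (evo c ((s : ℂ) * (-1))) x).re =
        -(∑ x, phi 2 (evo c ((s : ℂ) * (-1)) x) * lap (evo c ((s : ℂ) * (-1))) x).re := by
      rw [neg_one_mul, Complex.neg_re]
    rw [h2]
    push_cast
    linarith
  have h := hanti ht
  simpa using h

/-- The growth on a disc. -/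
lemma disc_growth {d : ℕ} {c : Finset (Fin n) → ℂ} (hc : ∀ S, d < S.card → c S = 0)
    {ν k : ℝ} (hν : 0 < ν) (hk : 0 < k) (hL : 0 ≤ Lam d ν k) {R : ℝ} (z : ℂ) (hz : ‖z‖ ≤ R) :
    Nm 2 (evo c z) ≤ Real.exp (2 * d * ν + Lam d ν k * R + 16 * d * R) * Nm 2 (evo c 0) := by
  set c' : Finset (Fin n) → ℂ := fun S => c S * Complex.exp (((z.im : ℂ) * Complex.I) * S.card)
    with hc'
  have hR : 0 ≤ R := (norm_nonneg z).trans hz
  have hre : |z.re| ≤ R := (Complex.abs_re_le_norm z).trans hz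
  have him : |z.im| ≤ R := (Complex.abs_im_le_norm z).trans hz
  have hc's : ∀ S, d < S.card → c' S = 0 := by
    intro S hS
    simp only [hc', hc S hS, zero_mul]
  have e1 : evo c' (z.re : ℂ) = evo c z := by
    funext x
    unfold evo
    refine sum_congr rfl fun S _ => ?_
    simp only [hc']
    rw [mul_assoc (c S), ← Complex.exp_add]
    congr 3
    conv_rhs => rw [← Complex.re_add_im z]
    ring
  have e0 : evo c' 0 = evo c ((z.im : ℂ) * Complex.I) := by
    funext x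
    unfold evo
    refine sum_congr rfl fun S _ => ?_
    simp only [hc']
    rw [zero_mul, Complex.exp_zero, mul_one]
  have g1 : Nm 2 (evo c' 0) ≤ Real.exp (16 * d * R) * Nm 2 (evo c 0) := by
    rw [e0]
    have h := Pool.Agent.Helper40.MB.Nm_growth_I (m := 2) (d := d) (by decide) (le_refl 2) c hc z.im
    refine h.trans ?_
    apply mul_le_mul_of_nonneg_right _ (Nm_nonneg 2 _)
    apply Real.exp_le_exp.2
    push_cast
    have h2 : (0 : ℝ) ≤ 16 * d := by positivity
    have h3 := mul_le_mul_of_nonneg_left him h2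
    linarith
  have g2 : Nm 2 (evo c' (z.re : ℂ)) ≤
      Real.exp (2 * d * ν + Lam d ν k * R) * Nm 2 (evo c' 0) := by
    rcases le_total 0 z.re with h | h
    · refine (complex_growth hc's hν hk h).trans ?_
      apply mul_le_mul_of_nonneg_right _ (Nm_nonneg 2 _)
      apply Real.exp_le_exp.2
      have h3 := mul_le_mul_of_nonneg_left ((le_abs_self z.re).trans hre) hL
      linarith
    · have h1 := contraction c' (neg_nonneg.2 h)
      have e2 : ((-z.re : ℝ) : ℂ) * (-1) = (z.re : ℂ) := by push_cast; ring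
      rw [e2] at h1
      refine h1.trans ?_
      have h4 : 1 ≤ Real.exp (2 * d * ν + Lam d ν k * R) := by
        rw [Real.one_le_exp_iff]
        positivity
      calc Nm 2 (evo c' 0) = 1 * Nm 2 (evo c' 0) := (one_mul _).symm
        _ ≤ _ := mul_le_mul_of_nonneg_right h4 (Nm_nonneg 2 _)
  rw [← e1]
  refine g2.trans ?_
  have h5 := mul_le_mul_of_nonneg_left g1 (Real.exp_pos (2 * d * ν + Lam d ν k * R)).le
  refine h5.trans (le_of_eq ?_)
  rw [← mul_assoc, ← Real.exp_add]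

/-- The bound on the rate constant. -/
lemma Lam_bound {d : ℕ} (hd : 1 ≤ d) :
    0 ≤ Lam d (1 / d) (2 * Real.sqrt (Real.log (d + 1))) ∧
    Lam d (1 / d) (2 * Real.sqrt (Real.log (d + 1))) ≤
      4 * d + 8 * d * Real.sqrt (Real.log (d + 1)) := by
  have hdR : (1 : ℝ) ≤ d := by exact_mod_cast hd
  have hlog : 0 < Real.log ((d : ℝ) + 1) := Real.log_pos (by linarith)
  set ℓ := Real.sqrt (Real.log ((d : ℝ) + 1)) with hℓ
  have hℓ0 : 0 < ℓ := Real.sqrt_pos.2 hlog
  have hℓ2 : ℓ ^ 2 = Real.log ((d : ℝ) + 1) := Real.sq_sqrt hlog.le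
  have hd0 : (0 : ℝ) < d := by linarith
  have hpos : (0 : ℝ) < 1 / d + 2 * ℓ * 0 := by
    rw [mul_zero, add_zero]; positivity
  have hj := jj_nonpos hpos
  have hj2 : -(2 * ℓ ^ 2) ≤ jj (1 / d) (2 * ℓ) 0 := by
    unfold jj
    rw [mul_zero, add_zero]
    set r := Real.exp (-(1 / (d : ℝ))) with hr
    have hr0 : 0 < r := Real.exp_pos _
    have hr1 : r ≤ d / (d + 1) := by
      rw [hr, Real.exp_neg]
      have h1 : 1 / (d : ℝ) + 1 ≤ Real.exp (1 / d) := Real.add_one_le_exp _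
      have h2 : (d : ℝ) / (d + 1) = (1 / (d : ℝ) + 1)⁻¹ := by
        field_simp
        ring
      rw [h2]
      exact inv_anti₀ (by positivity) h1
    have h3 : 1 / (d + 1) ≤ 1 - r := by
      have : (1 : ℝ) / (d + 1) = 1 - d / (d + 1) := by field_simp; ring
      rw [this]; linarith
    have h4 : 1 + r ≤ d + 1 := by
      have : r ≤ 1 := by
        refine hr1.trans ?_
        rw [div_le_one (by linarith)]
        linarith
      linarith
    have h5 : Real.log (1 / (d + 1)) ≤ Real.log (1 - r) :=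
      Real.log_le_log (by positivity) h3
    have h6 : Real.log (1 + r) ≤ Real.log ((d : ℝ) + 1) :=
      Real.log_le_log (by linarith) h4
    rw [one_div, Real.log_inv] at h5
    rw [hℓ2]
    linarith
  have hdiv : 0 ≤ 4 * (d : ℝ) / (2 * ℓ) := by positivity
  unfold Lam
  constructor
  · have h1 : 4 * (d : ℝ) / (2 * ℓ) * jj (1 / d) (2 * ℓ) 0 ≤ 0 :=
      mul_nonpos_of_nonneg_of_nonpos hdiv hj
    have h2 : 0 ≤ 2 * (d : ℝ) * (2 * ℓ) := by positivity
    linarith
  · have h1 := mul_le_mul_of_nonneg_left hj2 hdiv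
    have h2 : 4 * (d : ℝ) / (2 * ℓ) * -(2 * ℓ ^ 2) = -(4 * d * ℓ) := by
      field_simp
    rw [h2] at h1
    linarith

theorem main_bound4 {d : ℕ} (hd : 1 ≤ d) (c : Finset (Fin n) → ℂ)
    (hc : ∀ S, d < S.card → c S = 0) :
    Nm 2 (lap (evo c 0)) ≤ (37 * d * Real.sqrt (Real.log (d + 1))) ^ 4 * Nm 2 (evo c 0) := by
  have : Fact ((1 : ℝ≥0∞) ≤ ((2 * 2 : ℕ) : ℝ≥0∞)) := ⟨by norm_num⟩
  let p : ℝ≥0∞ := ((2 * 2 : ℕ) : ℝ≥0∞)
  let F : ℂ → PiLp p (fun _ : (Fin n → Bool) => ℂ) := fun z => WithLp.toLp p (evo c z)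
  have hF : ∀ z, HasDerivAt F (WithLp.toLp p (lap (evo c z))) z := by
    intro z
    have h1 : HasDerivAt (fun z => evo c z) (lap (evo c z)) z := by
      rw [hasDerivAt_pi]
      intro x
      exact hasDerivAt_evo c z x
    have h2 := ((PiLp.continuousLinearEquiv p ℂ
      (fun _ : (Fin n → Bool) => ℂ)).symm.toContinuousLinearMap.hasFDerivAt
        (x := evo c z)).comp_hasDerivAt z h1
    exact h2
  have hdR : (1 : ℝ) ≤ d := by exact_mod_cast hd
  have hd0 : (0 : ℝ) < d := by linarith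
  have hlog : 0.69 < Real.log ((d : ℝ) + 1) := by
    have h1 := Real.log_two_gt_d9
    have h2 : Real.log 2 ≤ Real.log ((d : ℝ) + 1) := Real.log_le_log (by norm_num) (by linarith)
    linarith
  set ℓ := Real.sqrt (Real.log ((d : ℝ) + 1)) with hℓ
  have hℓ1 : 0.83 ≤ ℓ := by
    apply Real.le_sqrt_of_sq_le
    norm_num
    linarith
  have hℓ0 : 0 < ℓ := by linarith
  obtain ⟨hL0, hL1⟩ := Lam_bound hd
  rw [← hℓ] at hL0 hL1
  set L := Lam d (1 / d) (2 * ℓ) with hL
  set R : ℝ := 4 / (L + 16 * d) with hR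
  have hden : 0 < L + 16 * d := by positivity
  have hRpos : 0 < R := by positivity
  have hbd : ∀ z ∈ Metric.sphere (0 : ℂ) R, ‖F z‖ ≤ Real.exp (3 / 2) * ‖F 0‖ := by
    intro z hz
    have hz' : ‖z‖ = R := by simpa using hz
    have h1 := disc_growth hc (ν := 1 / d) (k := 2 * ℓ) (by positivity) (by positivity) hL0 z
      hz'.le
    rw [← hL] at h1
    have h2 : 2 * (d : ℝ) * (1 / d) + L * R + 16 * d * R = 6 := by
      have : L * R + 16 * d * R = 4 := by
        rw [hR]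
        field_simp
      have h3 : 2 * (d : ℝ) * (1 / d) = 2 := by field_simp
      linarith
    rw [h2] at h1
    have h3 : ‖F z‖ ^ (2 * 2) ≤ (Real.exp (3 / 2) * ‖F 0‖) ^ (2 * 2) := by
      rw [mul_pow]
      have h4 : ‖F z‖ ^ (2 * 2) = Nm 2 (evo c z) := norm_toLp_pow 2 (by norm_num) _
      have h5 : ‖F 0‖ ^ (2 * 2) = Nm 2 (evo c 0) := norm_toLp_pow 2 (by norm_num) _
      rw [h4, h5]
      have h6 : Real.exp (3 / 2) ^ (2 * 2) = Real.exp 6 := by
        rw [← Real.exp_nat_mul]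
        norm_num
      rw [h6]
      exact h1
    exact le_of_pow_le_pow_left₀ (by norm_num) (by positivity) h3
  have hdiff : DiffContOnCl ℂ F (Metric.ball 0 R) :=
    (Differentiable.diffContOnCl (fun z => (hF z).differentiableAt))
  have hcauchy := Complex.norm_deriv_le_of_forall_mem_sphere_norm_le hRpos hdiff hbd
  rw [(hF 0).deriv] at hcauchy
  have hexp : Real.exp (3 / 2) ≤ 4.5 := by
    have h1 : Real.exp (3 / 2) ^ 2 = Real.exp 1 ^ 3 := by
      rw [← Real.exp_nat_mul, ← Real.exp_nat_mul]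
      norm_num
    have h2 : Real.exp 1 ^ 3 ≤ 4.5 ^ 2 := by
      have := Real.exp_one_lt_d9
      calc Real.exp 1 ^ 3 ≤ 2.7182818286 ^ 3 := pow_le_pow_left₀ (Real.exp_pos _).le this.le 3
        _ ≤ 4.5 ^ 2 := by norm_num
    rw [← h1] at h2
    exact le_of_pow_le_pow_left₀ (by norm_num) (by norm_num) h2
  have h7 : Real.exp (3 / 2) * ‖F 0‖ / R ≤ (37 * d * ℓ) * ‖F 0‖ := by
    have e : Real.exp (3 / 2) * ‖F 0‖ / R = Real.exp (3 / 2) * ((L + 16 * d) / 4) * ‖F 0‖ := by
      rw [hR]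
      field_simp
    rw [e]
    apply mul_le_mul_of_nonneg_right _ (norm_nonneg _)
    have h8 : (L + 16 * d) / 4 ≤ 5 * d + 2 * d * ℓ := by linarith
    calc Real.exp (3 / 2) * ((L + 16 * d) / 4) ≤ 4.5 * (5 * d + 2 * d * ℓ) :=
          mul_le_mul hexp h8 (by positivity) (by norm_num)
      _ ≤ 37 * d * ℓ := by
          have h9 := mul_le_mul_of_nonneg_left hℓ1 hd0.le
          nlinarith
  have h8 : ‖(WithLp.toLp p (lap (evo c 0)) : PiLp p (fun _ : (Fin n → Bool) => ℂ))‖ ^ (2 * 2) ≤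
      ((37 * d * ℓ) * ‖F 0‖) ^ (2 * 2) :=
    pow_le_pow_left₀ (norm_nonneg _) (hcauchy.trans h7) _
  rw [mul_pow] at h8
  have h9 : ‖F 0‖ ^ (2 * 2) = Nm 2 (evo c 0) := norm_toLp_pow 2 (by norm_num) _
  have h10 : ‖(WithLp.toLp p (lap (evo c 0)) : PiLp p (fun _ : (Fin n → Bool) => ℂ))‖ ^ (2 * 2) =
      Nm 2 (lap (evo c 0)) := norm_toLp_pow 2 (by norm_num) _
  rw [h9, h10] at h8
  exact h8

/-- The bound for complex coefficients. -/
theorem complex_bound4 {d : ℕ} (c : Finset (Fin n) → ℂ)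
    (hc : ∀ S, d < S.card → c S = 0) :
    ∑ x, ‖∑ S, (S.card : ℂ) * c S * ch S x‖ ^ 4 ≤
      (37 * d * Real.sqrt (Real.log (d + 1))) ^ 4 * ∑ x, ‖∑ S, c S * ch S x‖ ^ 4 := by
  have e0 : ∀ x, evo c 0 x = ∑ S, c S * ch S x := by
    intro x
    unfold evo
    simp
  have e1 : ∀ x, lap (evo c 0) x = ∑ S, (S.card : ℂ) * c S * ch S x := by
    intro x
    have h1 : evo c 0 = fun x => ∑ S, c S * ch S x := funext e0
    rw [h1, lap_sum]
  rcases Nat.eq_zero_or_pos d with h0 | hd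
  · have h2 : ∀ x : Fin n → Bool, ∑ S, (S.card : ℂ) * c S * ch S x = 0 := by
      intro x
      apply sum_eq_zero
      intro S _
      rcases Nat.eq_zero_or_pos S.card with h3 | h3
      · rw [h3]; simp
      · rw [hc S (by omega)]; simp
    simp only [h2, norm_zero]
    rw [h0]
    simp
  · have h := main_bound4 hd c hc
    unfold Nm at h
    simp only [e0, e1] at h
    exact h

end Pool.Agent.Helper54.SL
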