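import Pool.Agent.Helper54.SL.Kern

/-!
The Fourier side: the functional along a line, its derivatives, and the curvature inequality.
-/

open Finset

namespace Pool.Agent.Helper54.SL

open Pool.Agent.Helper54.MB

variable {n : ℕ}

/-- Real Walsh function. -/
noncomputable def w (S : Finset (Fin n)) (x : Fin n → Bool) : ℝ := ∏ i ∈ S, sg (x i)

lemma w_cast (S : Finset (Fin n)) (x : Fin n → Bool) : ((w S x : ℝ) : ℂ) = ch S x := by
  unfold w ch
  rw [Complex.ofReal_prod]
  refine prod_congr rfl fun i _ => ?_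
  cases x i <;> simp [sg]

lemma w_flp (S : Finset (Fin n)) (i : Fin n) (x : Fin n → Bool) :
    w S (flp i x) = if i ∈ S then - w S x else w S x := by
  have h := ch_flp S i x
  rw [← w_cast, ← w_cast] at h
  by_cases hi : i ∈ S
  · rw [if_pos hi] at h ⊢
    exact_mod_cast h
  · rw [if_neg hi] at h ⊢
    exact_mod_cast h

lemma lapR_sum (a : Finset (Fin n) → ℝ) (x : Fin n → Bool) :
    lapR (fun x => ∑ S, a S * w S x) x = ∑ S, ((S.card : ℝ) * a S) * w S x := by
  unfold lapR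
  have h1 : ∀ i : Fin n, (∑ S, a S * w S x - ∑ S, a S * w S (flp i x)) / 2 =
      ∑ S, if i ∈ S then a S * w S x else 0 := by
    intro i
    rw [← sum_sub_distrib, sum_div]
    refine sum_congr rfl fun S _ => ?_
    rw [w_flp]
    split_ifs <;> ring
  simp only [h1]
  rw [sum_comm]
  refine sum_congr rfl fun S _ => ?_
  rw [sum_ite_mem, univ_inter, sum_const, nsmul_eq_mul]
  ring

lemma Kr_eq (r : ℝ) (ω : (Fin n → Bool) × (Fin n → Bool)) :
    Kr r ω = ∑ U : Finset (Fin n), r ^ U.card * (w U ω.1 * w U ω.2) := by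
  unfold Kr
  rw [Finset.prod_one_add, Finset.powerset_univ]
  refine sum_congr rfl fun U _ => ?_
  rw [prod_mul_distrib, prod_const]
  unfold w ss
  rw [prod_mul_distrib]

/-- Unnormalised Walsh coefficient. -/
noncomputable def co (U : Finset (Fin n)) (g : (Fin n → Bool) → ℝ) : ℝ := ∑ x, w U x * g x

lemma bf_co (r : ℝ) (g h : (Fin n → Bool) → ℝ) :
    ∑ U : Finset (Fin n), r ^ U.card * (co U g * co U h) = ∑ ω, Kr r ω * (g ω.1 * h ω.2) := by
  simp only [Kr_eq, sum_mul]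
  rw [sum_comm]
  refine sum_congr rfl fun U _ => ?_
  unfold co
  rw [sum_mul_sum, mul_sum, Fintype.sum_prod_type]
  refine sum_congr rfl fun x _ => ?_
  rw [mul_sum]
  refine sum_congr rfl fun y _ => ?_
  ring

/-- `exp(s N) f`. -/
noncomputable def ev (c : Finset (Fin n) → ℝ) (s : ℝ) (x : Fin n → Bool) : ℝ :=
  ∑ S : Finset (Fin n), (c S * Real.exp (s * (S.card : ℝ))) * w S x

/-- Multiplication of the coefficients by the degree. -/
def Nc (c : Finset (Fin n) → ℝ) (S : Finset (Fin n)) : ℝ := (S.card : ℝ) * c S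

lemma lapR_ev (c : Finset (Fin n) → ℝ) (s : ℝ) : lapR (ev c s) = ev (Nc c) s := by
  funext x
  have h := lapR_sum (fun S => c S * Real.exp (s * (S.card : ℝ))) x
  have h2 : lapR (ev c s) x = lapR (fun x => ∑ S, (c S * Real.exp (s * (S.card : ℝ))) * w S x) x :=
    rfl
  rw [h2, h]
  unfold ev Nc
  refine sum_congr rfl fun S _ => ?_
  ring

lemma hasDerivAt_ev (c : Finset (Fin n) → ℝ) (s : ℝ) (x : Fin n → Bool) :
    HasDerivAt (fun s => ev c s x) (lapR (ev c s) x) s := by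
  rw [lapR_ev]
  have h : ev (Nc c) s x =
      ∑ S : Finset (Fin n), (c S * (Real.exp (s * (S.card : ℝ)) * (1 * (S.card : ℝ)))) * w S x := by
    unfold ev Nc
    refine sum_congr rfl fun S _ => ?_
    ring
  rw [h]
  unfold ev
  apply HasDerivAt.fun_sum
  intro S _
  apply HasDerivAt.mul_const
  apply HasDerivAt.const_mul
  apply HasDerivAt.exp
  exact (hasDerivAt_id s).mul_const _

lemma hasDerivAt_lap_ev (c : Finset (Fin n) → ℝ) (s : ℝ) (x : Fin n → Bool) :
    HasDerivAt (fun s => lapR (ev c s) x) (lapR (lapR (ev c s)) x) s := by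
  have h := hasDerivAt_ev (Nc c) s x
  have h2 : (fun s => lapR (ev c s) x) = fun s => ev (Nc c) s x := by
    funext s; rw [lapR_ev]
  rw [h2, lapR_ev c s]
  exact h

/-- Coefficients of `f_s^2`. -/
noncomputable def q0 (c : Finset (Fin n) → ℝ) (U : Finset (Fin n)) (s : ℝ) : ℝ :=
  co U (fun x => ev c s x ^ 2)

/-- Coefficients of the derivative of `f_s^2`. -/
noncomputable def q1 (c : Finset (Fin n) → ℝ) (U : Finset (Fin n)) (s : ℝ) : ℝ :=
  co U (fun x => 2 * (ev c s x * lapR (ev c s) x))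

/-- Coefficients of the second derivative of `f_s^2`. -/
noncomputable def q2 (c : Finset (Fin n) → ℝ) (U : Finset (Fin n)) (s : ℝ) : ℝ :=
  co U (fun x => 2 * (lapR (ev c s) x ^ 2 + ev c s x * lapR (lapR (ev c s)) x))

lemma hasDerivAt_q0 (c : Finset (Fin n) → ℝ) (U : Finset (Fin n)) (s : ℝ) :
    HasDerivAt (q0 c U) (q1 c U s) s := by
  unfold q0 q1 co
  apply HasDerivAt.fun_sum
  intro x _
  apply HasDerivAt.const_mul
  have h := (hasDerivAt_ev c s x).pow 2
  refine h.congr_deriv ?_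
  push_cast
  ring

lemma hasDerivAt_q1 (c : Finset (Fin n) → ℝ) (U : Finset (Fin n)) (s : ℝ) :
    HasDerivAt (q1 c U) (q2 c U s) s := by
  unfold q1 q2 co
  apply HasDerivAt.fun_sum
  intro x _
  apply HasDerivAt.const_mul
  apply HasDerivAt.const_mul
  have h := (hasDerivAt_ev c s x).mul (hasDerivAt_lap_ev c s x)
  refine h.congr_deriv ?_
  ring

/-- The exponential weight. -/
noncomputable def Ew (ν k : ℝ) (U : Finset (Fin n)) (s : ℝ) : ℝ :=
  Real.exp (-(ν + k * s) * (U.card : ℝ))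

lemma Ew_pos (ν k : ℝ) (U : Finset (Fin n)) (s : ℝ) : 0 < Ew ν k U s := Real.exp_pos _

lemma Ew_eq (ν k : ℝ) (U : Finset (Fin n)) (s : ℝ) :
    Ew ν k U s = Real.exp (-(ν + k * s)) ^ U.card := by
  unfold Ew
  rw [← Real.exp_nat_mul]
  congr 1
  ring

lemma hasDerivAt_Ew (ν k : ℝ) (U : Finset (Fin n)) (s : ℝ) :
    HasDerivAt (Ew ν k U) (Ew ν k U s * (-(k * (U.card : ℝ)))) s := by
  unfold Ew
  have h1 : HasDerivAt (fun s : ℝ => -(ν + k * s) * (U.card : ℝ)) (-(k * (U.card : ℝ))) s := by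
    have h2 : HasDerivAt (fun s : ℝ => ν + k * s) (k * 1) s :=
      ((hasDerivAt_id s).const_mul k).const_add ν
    have h3 := (h2.neg).mul_const (U.card : ℝ)
    refine h3.congr_deriv ?_
    ring
  exact h1.exp

/-- The functional. -/
noncomputable def G0 (c : Finset (Fin n) → ℝ) (ν k : ℝ) (s : ℝ) : ℝ :=
  ∑ U : Finset (Fin n), Ew ν k U s * q0 c U s ^ 2

/-- Its derivative. -/
noncomputable def G1 (c : Finset (Fin n) → ℝ) (ν k : ℝ) (s : ℝ) : ℝ :=
  ∑ U : Finset (Fin n), Ew ν k U s *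
    (q0 c U s * (2 * q1 c U s - k * (U.card : ℝ) * q0 c U s))

/-- Its second derivative. -/
noncomputable def G2 (c : Finset (Fin n) → ℝ) (ν k : ℝ) (s : ℝ) : ℝ :=
  ∑ U : Finset (Fin n), Ew ν k U s *
    ((2 * q1 c U s - k * (U.card : ℝ) * q0 c U s) ^ 2 +
      2 * (q0 c U s * q2 c U s - q1 c U s * q1 c U s))

lemma hasDerivAt_G0 (c : Finset (Fin n) → ℝ) (ν k s : ℝ) :
    HasDerivAt (G0 c ν k) (G1 c ν k s) s := by
  unfold G0 G1
  apply HasDerivAt.fun_sum
  intro U _
  have h := (hasDerivAt_Ew ν k U s).mul ((hasDerivAt_q0 c U s).pow 2)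
  refine h.congr_deriv ?_
  simp only [Pi.pow_apply]
  push_cast
  ring

lemma hasDerivAt_G1 (c : Finset (Fin n) → ℝ) (ν k s : ℝ) :
    HasDerivAt (G1 c ν k) (G2 c ν k s) s := by
  unfold G1 G2
  apply HasDerivAt.fun_sum
  intro U _
  have h1 := (hasDerivAt_q0 c U s)
  have h2 : HasDerivAt (fun s => 2 * q1 c U s - k * (U.card : ℝ) * q0 c U s)
      (2 * q2 c U s - k * (U.card : ℝ) * q1 c U s) s :=
    ((hasDerivAt_q1 c U s).const_mul 2).sub ((hasDerivAt_q0 c U s).const_mul _)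
  have h := (hasDerivAt_Ew ν k U s).mul (h1.mul h2)
  refine h.congr_deriv ?_
  simp only [Pi.mul_apply]
  ring

lemma ev_DegLe {d : ℕ} {c : Finset (Fin n) → ℝ} (hc : ∀ S, d < S.card → c S = 0) (s : ℝ) :
    DegLe d (ev c s) := by
  unfold DegLe
  have h : (fun x => ((ev c s x : ℝ) : ℂ)) =
      fun x => ∑ S : Finset (Fin n), ((c S * Real.exp (s * (S.card : ℝ)) : ℝ) : ℂ) * ch S x := by
    funext x
    unfold ev
    rw [Complex.ofReal_sum]
    refine sum_congr rfl fun S _ => ?_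
    rw [Complex.ofReal_mul, w_cast]
  rw [h]
  apply sum_mem_D
  intro S hS
  rw [hc S hS]
  simp

/-- The key curvature inequality on the Fourier side. -/
lemma key_fourier {d : ℕ} {c : Finset (Fin n) → ℝ} (hc : ∀ S, d < S.card → c S = 0)
    {ν k s : ℝ} (hν : 0 < ν + k * s) :
    -(4 * Real.exp (-(ν + k * s)) * d / (1 - Real.exp (-(ν + k * s)) ^ 2) * G0 c ν k s) ≤
      ∑ U : Finset (Fin n), Ew ν k U s * (q0 c U s * q2 c U s - q1 c U s * q1 c U s) := by
  set r := Real.exp (-(ν + k * s)) with hr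
  have h0 : 0 ≤ r := (Real.exp_pos _).le
  have h1 : r < 1 := by rw [hr, Real.exp_lt_one_iff]; linarith
  have h := curv_pairs h0 h1 (ev_DegLe hc s)
  have e0 : G0 c ν k s = ∑ ω, Kr r ω * (ev c s ω.1 * ev c s ω.2) ^ 2 := by
    unfold G0
    have h2 := bf_co r (fun x => ev c s x ^ 2) (fun x => ev c s x ^ 2)
    have h3 : ∑ U : Finset (Fin n), Ew ν k U s * q0 c U s ^ 2 =
        ∑ U : Finset (Fin n), r ^ U.card * (co U (fun x => ev c s x ^ 2) *
          co U (fun x => ev c s x ^ 2)) := by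
      refine sum_congr rfl fun U _ => ?_
      rw [Ew_eq, ← hr]
      unfold q0
      ring
    rw [h3, h2]
    refine sum_congr rfl fun ω _ => ?_
    ring
  rw [e0]
  refine h.trans (le_of_eq ?_)
  set f := ev c s with hf
  have hA := bf_co r (fun x => f x ^ 2) (fun x => 2 * (lapR f x ^ 2 + f x * lapR (lapR f) x))
  have hA' := bf_co r (fun x => 2 * (lapR f x ^ 2 + f x * lapR (lapR f) x)) (fun x => f x ^ 2)
  have hB := bf_co r (fun x => 2 * (f x * lapR f x)) (fun x => 2 * (f x * lapR f x))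
  have e1 : ∑ U : Finset (Fin n), Ew ν k U s * (q0 c U s * q2 c U s - q1 c U s * q1 c U s) =
      1 / 2 * ∑ U : Finset (Fin n), r ^ U.card * (co U (fun x => f x ^ 2) *
        co U (fun x => 2 * (lapR f x ^ 2 + f x * lapR (lapR f) x))) +
      1 / 2 * ∑ U : Finset (Fin n), r ^ U.card * (co U (fun x => 2 * (lapR f x ^ 2 +
        f x * lapR (lapR f) x)) * co U (fun x => f x ^ 2)) -
      ∑ U : Finset (Fin n), r ^ U.card * (co U (fun x => 2 * (f x * lapR f x)) *
        co U (fun x => 2 * (f x * lapR f x))) := by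
    rw [mul_sum, mul_sum, ← sum_add_distrib, ← sum_sub_distrib]
    refine sum_congr rfl fun U _ => ?_
    rw [Ew_eq, ← hr]
    unfold q0 q1 q2
    rw [← hf]
    ring
  rw [e1, hA, hA', hB, mul_sum, mul_sum, ← sum_add_distrib, ← sum_sub_distrib]
  refine sum_congr rfl fun ω _ => ?_
  ring

/-- The curvature inequality along lines. -/
theorem curv_line {d : ℕ} {c : Finset (Fin n) → ℝ} (hc : ∀ S, d < S.card → c S = 0)
    {ν k s : ℝ} (hν : 0 < ν + k * s) :
    -(8 * Real.exp (-(ν + k * s)) * d / (1 - Real.exp (-(ν + k * s)) ^ 2) * G0 c ν k s ^ 2) ≤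
      G2 c ν k s * G0 c ν k s - G1 c ν k s ^ 2 := by
  have hkey := key_fourier hc hν
  have hG0 : 0 ≤ G0 c ν k s :=
    sum_nonneg fun U _ => mul_nonneg (Ew_pos ν k U s).le (sq_nonneg _)
  have hCS : G1 c ν k s ^ 2 ≤ G0 c ν k s * ∑ U : Finset (Fin n), Ew ν k U s *
      (2 * q1 c U s - k * (U.card : ℝ) * q0 c U s) ^ 2 := by
    unfold G1 G0
    apply Finset.sum_sq_le_sum_mul_sum_of_sq_le_mul
    · intro U _
      exact mul_nonneg (Ew_pos ν k U s).le (sq_nonneg _)
    · intro U _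
      exact mul_nonneg (Ew_pos ν k U s).le (sq_nonneg _)
    · intro U _
      apply le_of_eq
      ring
  have hG2 : G2 c ν k s = ∑ U : Finset (Fin n), Ew ν k U s *
      (2 * q1 c U s - k * (U.card : ℝ) * q0 c U s) ^ 2 +
      2 * ∑ U : Finset (Fin n), Ew ν k U s * (q0 c U s * q2 c U s - q1 c U s * q1 c U s) := by
    unfold G2
    rw [mul_sum, ← sum_add_distrib]
    refine sum_congr rfl fun U _ => ?_
    ring
  have h3 := mul_le_mul_of_nonneg_left hkey hG0
  have e : 8 * Real.exp (-(ν + k * s)) * d / (1 - Real.exp (-(ν + k * s)) ^ 2) * G0 c ν k s ^ 2 =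
      2 * (G0 c ν k s * (4 * Real.exp (-(ν + k * s)) * d / (1 - Real.exp (-(ν + k * s)) ^ 2) *
        G0 c ν k s)) := by ring
  rw [e, hG2]
  nlinarith

end Pool.Agent.Helper54.SL
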