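import Pool.Agent.Helper54.SL.Comm
import Pool.Agent.Helper54.MB.Cube

/-!
The noise kernel on pairs of points of the cube, and the curvature inequality.
-/

open Finset

namespace Pool.Agent.Helper54.SL

open Pool.Agent.Helper54.MB

variable {n : ℕ}

/-- The sign of a Boolean. -/
noncomputable def sg (b : Bool) : ℝ := if b then 1 else -1

lemma sg_sq (b : Bool) : sg b * sg b = 1 := by
  cases b <;> simp [sg]

lemma sg_not (b : Bool) : sg (!b) = - sg b := by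
  cases b <;> simp [sg]

lemma sg_beq (a b : Bool) : sg (a == b) = sg a * sg b := by
  cases a <;> cases b <;> simp [sg]

lemma flp_self (i : Fin n) (x : Fin n → Bool) : flp i x i = !x i := by
  simp [flp]

lemma flp_ne {i j : Fin n} (h : j ≠ i) (x : Fin n → Bool) : flp i x j = x j := by
  simp [flp, Function.update_of_ne h]

lemma flp_comm (i j : Fin n) (x : Fin n → Bool) : flp i (flp j x) = flp j (flp i x) := by
  funext k
  by_cases hi : k = i
  · subst hi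
    by_cases hj : k = j
    · subst hj
      rfl
    · rw [flp_self, flp_ne hj, flp_ne hj, flp_self]
  · rw [flp_ne hi]
    by_cases hj : k = j
    · subst hj
      rw [flp_self, flp_self, flp_ne hi]
    · rw [flp_ne hj, flp_ne hj, flp_ne hi]

/-- The product of the signs at the coordinate `i`. -/
noncomputable def ss (i : Fin n) (ω : (Fin n → Bool) × (Fin n → Bool)) : ℝ :=
  sg (ω.1 i) * sg (ω.2 i)

/-- The noise kernel. -/
noncomputable def Kr (r : ℝ) (ω : (Fin n → Bool) × (Fin n → Bool)) : ℝ :=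
  ∏ i, (1 + r * ss i ω)

/-- The ratio of the kernel at neighbouring points. -/
noncomputable def rt (r : ℝ) (i : Fin n) (ω : (Fin n → Bool) × (Fin n → Bool)) : ℝ :=
  (1 - r * ss i ω) / (1 + r * ss i ω)

/-- Flip in the second variable. -/
def Uf (i : Fin n) (ω : (Fin n → Bool) × (Fin n → Bool)) : (Fin n → Bool) × (Fin n → Bool) :=
  (ω.1, flp i ω.2)

/-- Flip in the first variable. -/
def Wf (i : Fin n) (ω : (Fin n → Bool) × (Fin n → Bool)) : (Fin n → Bool) × (Fin n → Bool) :=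
  (flp i ω.1, ω.2)

lemma ss_cases (i : Fin n) (ω : (Fin n → Bool) × (Fin n → Bool)) : ss i ω = 1 ∨ ss i ω = -1 := by
  unfold ss sg
  cases ω.1 i <;> cases ω.2 i <;> simp

lemma ss_Uf_self (i : Fin n) (ω : (Fin n → Bool) × (Fin n → Bool)) : ss i (Uf i ω) = - ss i ω := by
  unfold ss Uf
  simp only [flp_self, sg_not]
  ring

lemma ss_Wf_self (i : Fin n) (ω : (Fin n → Bool) × (Fin n → Bool)) : ss i (Wf i ω) = - ss i ω := by
  unfold ss Wf
  simp only [flp_self, sg_not]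
  ring

lemma ss_Uf_ne {i j : Fin n} (h : i ≠ j) (ω : (Fin n → Bool) × (Fin n → Bool)) :
    ss i (Uf j ω) = ss i ω := by
  unfold ss Uf
  simp only [flp_ne h]

lemma ss_Wf_ne {i j : Fin n} (h : i ≠ j) (ω : (Fin n → Bool) × (Fin n → Bool)) :
    ss i (Wf j ω) = ss i ω := by
  unfold ss Wf
  simp only [flp_ne h]

lemma one_add_pos {r : ℝ} (h0 : 0 ≤ r) (h1 : r < 1) (i : Fin n)
    (ω : (Fin n → Bool) × (Fin n → Bool)) : 0 < 1 + r * ss i ω := by
  rcases ss_cases i ω with h | h <;> rw [h] <;> linarith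

lemma one_sub_pos {r : ℝ} (h0 : 0 ≤ r) (h1 : r < 1) (i : Fin n)
    (ω : (Fin n → Bool) × (Fin n → Bool)) : 0 < 1 - r * ss i ω := by
  rcases ss_cases i ω with h | h <;> rw [h] <;> linarith

lemma Kr_pos {r : ℝ} (h0 : 0 ≤ r) (h1 : r < 1) (ω : (Fin n → Bool) × (Fin n → Bool)) :
    0 < Kr r ω := prod_pos fun i _ => one_add_pos h0 h1 i ω

lemma Kr_step {r : ℝ} (h0 : 0 ≤ r) (h1 : r < 1) (i : Fin n)
    (ω ω' : (Fin n → Bool) × (Fin n → Bool)) (hs : ss i ω' = - ss i ω)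
    (hn : ∀ j, j ≠ i → ss j ω' = ss j ω) : Kr r ω' = rt r i ω * Kr r ω := by
  unfold Kr rt
  rw [← mul_prod_erase univ (fun j => 1 + r * ss j ω') (mem_univ i),
    ← mul_prod_erase univ (fun j => 1 + r * ss j ω) (mem_univ i)]
  have e : ∏ j ∈ univ.erase i, (1 + r * ss j ω') = ∏ j ∈ univ.erase i, (1 + r * ss j ω) :=
    prod_congr rfl fun j hj => by rw [hn j (ne_of_mem_erase hj)]
  simp only [e, hs]
  have := (one_add_pos h0 h1 i ω).ne'
  field_simp
  ring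

lemma flips {r : ℝ} (h0 : 0 ≤ r) (h1 : r < 1) :
    Flips (Uf (n := n)) Wf (Kr r) (rt r) where
  Kpos ω := (Kr_pos h0 h1 ω).le
  ρpos i ω := div_pos (one_sub_pos h0 h1 i ω) (one_add_pos h0 h1 i ω)
  UU i ω := by simp [Uf, flp_flp]
  WW i ω := by simp [Wf, flp_flp]
  UUc i j ω := by simp [Uf, flp_comm i j]
  WWc i j ω := by simp [Wf, flp_comm i j]
  UWc i j ω := by simp [Uf, Wf]
  KU i ω := Kr_step h0 h1 i ω _ (ss_Uf_self i ω) (fun j hj => ss_Uf_ne hj ω)
  KW i ω := Kr_step h0 h1 i ω _ (ss_Wf_self i ω) (fun j hj => ss_Wf_ne hj ω)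
  ρU i j ω h := by unfold rt; rw [ss_Uf_ne h]
  ρW i j ω h := by unfold rt; rw [ss_Wf_ne h]
  ρUs i ω := by unfold rt; rw [ss_Uf_self, inv_div]; ring_nf
  ρWs i ω := by unfold rt; rw [ss_Wf_self, inv_div]; ring_nf

lemma rt_lower {r : ℝ} (h0 : 0 ≤ r) (h1 : r < 1) (i : Fin n)
    (ω : (Fin n → Bool) × (Fin n → Bool)) :
    -(2 * (2 * r / (1 - r ^ 2))) ≤ rt r i ω - (rt r i ω)⁻¹ := by
  unfold rt
  rw [inv_div]
  have h2 : 0 < 1 - r ^ 2 := by nlinarith
  have ha := one_add_pos h0 h1 i ω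
  have hb := one_sub_pos h0 h1 i ω
  have e : (1 - r * ss i ω) / (1 + r * ss i ω) - (1 + r * ss i ω) / (1 - r * ss i ω) =
      -(4 * r * ss i ω) / (1 - r ^ 2) := by
    rcases ss_cases i ω with h | h <;> rw [h] at ha hb ⊢
    · rw [div_sub_div _ _ ha.ne' hb.ne', div_eq_div_iff (mul_pos ha hb).ne' h2.ne']
      ring
    · rw [div_sub_div _ _ ha.ne' hb.ne', div_eq_div_iff (mul_pos ha hb).ne' h2.ne']
      ring
  rw [e]
  have e2 : -(2 * (2 * r / (1 - r ^ 2))) = -(4 * r) / (1 - r ^ 2) := by ring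
  rw [e2, div_le_div_iff_of_pos_right h2]
  rcases ss_cases i ω with h | h <;> rw [h] <;> nlinarith

/-- The Laplacian on real functions. -/
noncomputable def lapR (f : (Fin n → Bool) → ℝ) (x : Fin n → Bool) : ℝ :=
  ∑ i, (f x - f (flp i x)) / 2

lemma sum_Xop (f g : (Fin n → Bool) → ℝ) (ω : (Fin n → Bool) × (Fin n → Bool)) :
    ∑ i, Xop Uf Wf i (fun ω => f ω.1 * g ω.2) ω = lapR f ω.1 * g ω.2 - f ω.1 * lapR g ω.2 := by
  unfold Xop Uf Wf lapR
  simp only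
  rw [sum_mul, mul_sum, ← sum_sub_distrib]
  refine sum_congr rfl fun i _ => ?_
  ring

lemma sum_sum_Xop (F : (Fin n → Bool) × (Fin n → Bool) → ℝ) (ω : (Fin n → Bool) × (Fin n → Bool)) :
    ∑ i, ∑ j, Xop Uf Wf i (Xop Uf Wf j F) ω =
      ∑ i, Xop Uf Wf i (fun ω => ∑ j, Xop Uf Wf j F ω) ω := by
  refine sum_congr rfl fun i _ => ?_
  unfold Xop
  simp only
  rw [← sum_sub_distrib, sum_div]

lemma Xop_sub (F G : (Fin n → Bool) × (Fin n → Bool) → ℝ) (i : Fin n)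
    (ω : (Fin n → Bool) × (Fin n → Bool)) :
    Xop Uf Wf i (fun ω => F ω - G ω) ω = Xop Uf Wf i F ω - Xop Uf Wf i G ω := by
  unfold Xop
  ring

lemma sum_sum_Xop_prod (f : (Fin n → Bool) → ℝ) (ω : (Fin n → Bool) × (Fin n → Bool)) :
    ∑ i, ∑ j, Xop Uf Wf i (Xop Uf Wf j (fun ω => f ω.1 * f ω.2)) ω =
      lapR (lapR f) ω.1 * f ω.2 - 2 * (lapR f ω.1 * lapR f ω.2) + f ω.1 * lapR (lapR f) ω.2 := by
  rw [sum_sum_Xop]
  simp only [sum_Xop]
  have e : ∀ i, Xop Uf Wf i (fun ω : (Fin n → Bool) × (Fin n → Bool) =>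
      lapR f ω.1 * f ω.2 - f ω.1 * lapR f ω.2) ω =
      Xop Uf Wf i (fun ω => lapR f ω.1 * f ω.2) ω - Xop Uf Wf i (fun ω => f ω.1 * lapR f ω.2) ω :=
    fun i => Xop_sub _ _ i ω
  simp only [e, sum_sub_distrib, sum_Xop]
  ring

/-- Multiplication of points of the cube. -/
def mulv (x z : Fin n → Bool) : Fin n → Bool := fun i => (x i == z i)

lemma mulv_mulv (x z : Fin n → Bool) : mulv x (mulv x z) = z := by
  funext i
  unfold mulv
  cases x i <;> cases z i <;> simp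

lemma mulv_flp (i : Fin n) (x z : Fin n → Bool) : mulv (flp i x) z = flp i (mulv x z) := by
  funext j
  by_cases h : j = i
  · subst h
    simp only [mulv, flp_self]
    cases x j <;> cases z j <;> simp
  · rw [flp_ne h]
    simp only [mulv, flp_ne h]

/-- The change of variables `y = x z`. -/
lemma sum_pairs (g : (Fin n → Bool) × (Fin n → Bool) → ℝ) :
    ∑ ω, g ω = ∑ z, ∑ x, g (x, mulv x z) := by
  rw [Fintype.sum_prod_type, sum_comm]
  rw [Finset.sum_comm]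
  conv_rhs => rw [sum_comm]
  refine sum_congr rfl fun x _ => ?_
  exact (sum_inv (mulv x) (mulv_mulv x) (fun y => g (x, y))).symm

lemma Kr_mulv (r : ℝ) (x z : Fin n → Bool) : Kr r (x, mulv x z) = ∏ i, (1 + r * sg (z i)) := by
  unfold Kr ss mulv
  refine prod_congr rfl fun i _ => ?_
  simp only [sg_beq]
  rw [← mul_assoc (sg (x i)), sg_sq, one_mul]

/-- A real function of degree at most `d`. -/
def DegLe (d : ℕ) (f : (Fin n → Bool) → ℝ) : Prop := (fun x => (f x : ℂ)) ∈ D n d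

lemma ch_mulv (S : Finset (Fin n)) (x z : Fin n → Bool) : ch S (mulv x z) = ch S x * ch S z := by
  unfold ch mulv
  rw [← prod_mul_distrib]
  refine prod_congr rfl fun i _ => ?_
  cases x i <;> cases z i <;> simp

lemma comp_mulv_mem {d : ℕ} {u : (Fin n → Bool) → ℂ} (hu : u ∈ D n d) (z : Fin n → Bool) :
    (fun x => u (mulv x z)) ∈ D n d := by
  unfold D at hu ⊢
  rw [Submodule.mem_span_range_iff_exists_fun] at hu ⊢
  obtain ⟨c, rfl⟩ := hu
  refine ⟨fun S => c S * ch S.1 z, ?_⟩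
  funext x
  simp only [Finset.sum_apply, Pi.smul_apply, smul_eq_mul]
  refine sum_congr rfl fun S _ => ?_
  rw [ch_mulv]
  ring

/-- The Dirichlet form of the double flips. -/
lemma sum_Pop_le {r : ℝ} (h0 : 0 ≤ r) (h1 : r < 1) {d : ℕ} {f : (Fin n → Bool) → ℝ}
    (hf : DegLe d f) :
    ∑ i, ∑ ω, Kr r ω * (Pop Uf Wf i (fun ω => f ω.1 * f ω.2) ω) ^ 2 ≤
      2 * d * ∑ ω, Kr r ω * (f ω.1 * f ω.2) ^ 2 := by
  rw [sum_comm]
  rw [sum_pairs, sum_pairs, mul_sum]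
  refine sum_le_sum fun z _ => ?_
  simp only [Kr_mulv]
  have hmem : (fun x => ((f x : ℂ)) * (f (mulv x z) : ℂ)) ∈ D n (d + d) := by
    have := mul_mem_D hf (comp_mulv_mem hf z)
    exact this
  have h2 := dirichlet_le hmem
  have h3 : ∀ (i : Fin n) (x : Fin n → Bool),
      (Pop Uf Wf i (fun ω => f ω.1 * f ω.2) (x, mulv x z)) ^ 2 =
      1 / 4 * ‖((f x : ℂ)) * (f (mulv x z) : ℂ) -
        (f (flp i x) : ℂ) * (f (mulv (flp i x) z) : ℂ)‖ ^ 2 := by
    intro i x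
    have e : ((f x : ℂ)) * (f (mulv x z) : ℂ) - (f (flp i x) : ℂ) * (f (mulv (flp i x) z) : ℂ) =
        ((f x * f (mulv x z) - f (flp i x) * f (mulv (flp i x) z) : ℝ) : ℂ) := by
      push_cast; ring
    rw [e, Complex.norm_real, Real.norm_eq_abs, sq_abs, mulv_flp]
    unfold Pop Uf Wf
    simp only
    ring
  have h4 : ∀ x : Fin n → Bool, (f x * f (mulv x z)) ^ 2 =
      ‖((f x : ℂ)) * (f (mulv x z) : ℂ)‖ ^ 2 := by
    intro x
    rw [← Complex.ofReal_mul, Complex.norm_real, Real.norm_eq_abs, sq_abs]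
  simp only [h3, h4]
  have hK : 0 ≤ ∏ i, (1 + r * sg (z i)) := by
    apply prod_nonneg
    intro i _
    unfold sg
    split_ifs <;> linarith
  rw [sum_comm]
  simp only [← mul_sum]
  push_cast at h2
  have h5 : (∏ i, (1 + r * sg (z i))) * (1 / 4 * ∑ i, ∑ x, ‖((f x : ℂ)) * (f (mulv x z) : ℂ) -
        (f (flp i x) : ℂ) * (f (mulv (flp i x) z) : ℂ)‖ ^ 2) ≤ (∏ i, (1 + r * sg (z i))) *
        (1 / 4 * (4 * (d + d) * ∑ x, ‖((f x : ℂ)) * (f (mulv x z) : ℂ)‖ ^ 2)) := by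
    apply mul_le_mul_of_nonneg_left _ hK
    linarith
  refine h5.trans (le_of_eq ?_)
  ring

/-- The curvature inequality in the space variables. -/
theorem curv_pairs {r : ℝ} (h0 : 0 ≤ r) (h1 : r < 1) {d : ℕ} {f : (Fin n → Bool) → ℝ}
    (hf : DegLe d f) :
    -(4 * r * d / (1 - r ^ 2) * ∑ ω, Kr r ω * (f ω.1 * f ω.2) ^ 2) ≤
      ∑ ω, Kr r ω * ((lapR f ω.1 * f ω.2 - f ω.1 * lapR f ω.2) ^ 2 +
        f ω.1 * f ω.2 * (lapR (lapR f) ω.1 * f ω.2 - 2 * (lapR f ω.1 * lapR f ω.2) +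
          f ω.1 * lapR (lapR f) ω.2)) := by
  have h2 := (flips (n := n) h0 h1).lower (fun ω => f ω.1 * f ω.2) (2 * r / (1 - r ^ 2))
    (fun i ω => rt_lower h0 h1 i ω)
  simp only [sum_Xop, sum_sum_Xop_prod] at h2
  refine le_trans ?_ h2
  have h3 := sum_Pop_le h0 h1 hf
  have h4 : 0 < 1 - r ^ 2 := by nlinarith
  have h5 : 0 ≤ 2 * r / (1 - r ^ 2) := by positivity
  have h6 := mul_le_mul_of_nonneg_left h3 h5
  have e : 4 * r * d / (1 - r ^ 2) * ∑ ω, Kr r ω * (f ω.1 * f ω.2) ^ 2 =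
      2 * r / (1 - r ^ 2) * (2 * d * ∑ ω, Kr r ω * (f ω.1 * f ω.2) ^ 2) := by ring
  rw [e]
  linarith

end Pool.Agent.Helper54.SL
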