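import Pool.Agent.Helper54.SL.Four

/-!
Integration of the curvature inequality: the rate of growth of the smoothed fourth moment.
-/

open Finset

namespace Pool.Agent.Helper54.SL

open Pool.Agent.Helper54.MB

variable {n : ℕ}

lemma co_zero {k : ℕ} {g : (Fin n → Bool) → ℝ} (hg : DegLe k g) {U : Finset (Fin n)}
    (hU : k < U.card) : co U g = 0 := by
  unfold DegLe D at hg
  rw [Submodule.mem_span_range_iff_exists_fun] at hg
  obtain ⟨c, hc⟩ := hg
  have h1 : ((co U g : ℝ) : ℂ) = 0 := by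
    unfold co
    rw [Complex.ofReal_sum]
    have h2 : ∀ x, ((w U x * g x : ℝ) : ℂ) =
        ∑ S : {S : Finset (Fin n) // S.card ≤ k}, c S * (ch U x * ch S.1 x) := by
      intro x
      have h3 := congrFun hc x
      simp only [Finset.sum_apply, Pi.smul_apply, smul_eq_mul] at h3
      rw [Complex.ofReal_mul, w_cast, ← h3, mul_sum]
      refine sum_congr rfl fun S _ => ?_
      ring
    simp only [h2]
    rw [sum_comm]
    apply sum_eq_zero
    intro S _
    rw [← mul_sum, sum_ch_mul, if_neg, mul_zero]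
    intro h
    have := S.2
    rw [← h] at this
    omega
  exact_mod_cast h1

lemma q0_zero {d : ℕ} {c : Finset (Fin n) → ℝ} (hc : ∀ S, d < S.card → c S = 0) (s : ℝ)
    {U : Finset (Fin n)} (hU : 2 * d < U.card) : q0 c U s = 0 := by
  unfold q0
  apply co_zero (k := d + d) _ (by omega)
  unfold DegLe
  have h := mul_mem_D (ev_DegLe hc s) (ev_DegLe hc s)
  have e : (fun x => ((ev c s x ^ 2 : ℝ) : ℂ)) =
      (fun x => ((ev c s x : ℝ) : ℂ)) * (fun x => ((ev c s x : ℝ) : ℂ)) := by
    funext x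
    simp only [Pi.mul_apply]
    push_cast
    ring
  rw [e]
  exact h

lemma q0_empty (c : Finset (Fin n) → ℝ) (s : ℝ) :
    q0 c ∅ s = 2 ^ n * ∑ S : Finset (Fin n), (c S * Real.exp (s * (S.card : ℝ))) ^ 2 := by
  have h := parseval (fun S : Finset (Fin n) => ((c S * Real.exp (s * (S.card : ℝ)) : ℝ) : ℂ))
  have e1 : ∀ x : Fin n → Bool,
      ‖∑ S : Finset (Fin n), ((c S * Real.exp (s * (S.card : ℝ)) : ℝ) : ℂ) * ch S x‖ ^ 2 =
      ev c s x ^ 2 := by
    intro x
    have : ∑ S : Finset (Fin n), ((c S * Real.exp (s * (S.card : ℝ)) : ℝ) : ℂ) * ch S x =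
        ((ev c s x : ℝ) : ℂ) := by
      unfold ev
      rw [Complex.ofReal_sum]
      refine sum_congr rfl fun S _ => ?_
      rw [Complex.ofReal_mul _ (w S x), w_cast]
    rw [this, Complex.norm_real, Real.norm_eq_abs, sq_abs]
  have e2 : ∀ S : Finset (Fin n), ‖((c S * Real.exp (s * (S.card : ℝ)) : ℝ) : ℂ)‖ ^ 2 =
      (c S * Real.exp (s * (S.card : ℝ))) ^ 2 := by
    intro S
    rw [Complex.norm_real, Real.norm_eq_abs, sq_abs]
  simp only [e1, e2] at h
  unfold q0 co
  rw [← h]
  refine sum_congr rfl fun x _ => ?_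
  simp [w]

lemma G0_pos {c : Finset (Fin n) → ℝ} (hc : ∃ S, c S ≠ 0) (ν k s : ℝ) : 0 < G0 c ν k s := by
  obtain ⟨S, hS⟩ := hc
  have h1 : 0 < q0 c ∅ s := by
    rw [q0_empty]
    apply mul_pos (by positivity)
    apply sum_pos' (fun S _ => sq_nonneg _)
    exact ⟨S, mem_univ S, by positivity⟩
  unfold G0
  apply sum_pos' (fun U _ => mul_nonneg (Ew_pos ν k U s).le (sq_nonneg _))
  exact ⟨∅, mem_univ _, mul_pos (Ew_pos ν k ∅ s) (by positivity)⟩

/-- The correction. -/
noncomputable def jj (ν k s : ℝ) : ℝ :=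
  Real.log (1 - Real.exp (-(ν + k * s))) - Real.log (1 + Real.exp (-(ν + k * s)))

lemma jj_nonpos {ν k s : ℝ} (h : 0 < ν + k * s) : jj ν k s ≤ 0 := by
  unfold jj
  have h1 : Real.exp (-(ν + k * s)) < 1 := by rw [Real.exp_lt_one_iff]; linarith
  have h2 := Real.exp_pos (-(ν + k * s))
  have h3 : Real.log (1 - Real.exp (-(ν + k * s))) ≤ Real.log (1 + Real.exp (-(ν + k * s))) :=
    Real.log_le_log (by linarith) (by linarith)
  linarith

lemma hasDerivAt_jj {ν k s : ℝ} (h : 0 < ν + k * s) :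
    HasDerivAt (jj ν k) (k * (2 * Real.exp (-(ν + k * s)) /
      (1 - Real.exp (-(ν + k * s)) ^ 2))) s := by
  have h1 : Real.exp (-(ν + k * s)) < 1 := by rw [Real.exp_lt_one_iff]; linarith
  have h2 := Real.exp_pos (-(ν + k * s))
  have h3 : HasDerivAt (fun s : ℝ => Real.exp (-(ν + k * s)))
      (Real.exp (-(ν + k * s)) * (-k)) s := by
    have h4 : HasDerivAt (fun s : ℝ => -(ν + k * s)) (-k) s := by
      have h5 : HasDerivAt (fun s : ℝ => ν + k * s) (k * 1) s :=
        ((hasDerivAt_id s).const_mul k).const_add ν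
      refine h5.neg.congr_deriv ?_
      ring
    exact h4.exp
  have h6 := (h3.const_sub 1).log (by linarith)
  have h7 := (h3.const_add 1).log (by linarith)
  have h8 := h6.sub h7
  unfold jj
  refine h8.congr_deriv ?_
  have h9 : (1 - Real.exp (-(ν + k * s))) ≠ 0 := by linarith
  have h10 : (1 + Real.exp (-(ν + k * s))) ≠ 0 := by linarith
  have h11 : (1 - Real.exp (-(ν + k * s)) ^ 2) ≠ 0 := by
    have : (1 - Real.exp (-(ν + k * s)) ^ 2) =
      (1 - Real.exp (-(ν + k * s))) * (1 + Real.exp (-(ν + k * s))) := by ring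
    rw [this]
    exact mul_ne_zero h9 h10
  rw [div_sub_div _ _ h9 h10]
  have h12 : (1 - Real.exp (-(ν + k * s))) * (1 + Real.exp (-(ν + k * s))) =
    (1 - Real.exp (-(ν + k * s)) ^ 2) := by ring
  rw [h12]
  ring

/-- Upper bound for the functional. -/
lemma G0_upper {d : ℕ} {c : Finset (Fin n) → ℝ} (hc : ∀ S, d < S.card → c S = 0) {ν k s : ℝ}
    (hν : 0 ≤ ν) (hk : 0 ≤ k) (hs : 0 ≤ s) :
    G0 c ν k s ≤ (∑ _U : Finset (Fin n), (∑ _x : Fin n → Bool,
      (∑ S : Finset (Fin n), |c S|) ^ 2) ^ 2) * Real.exp (4 * d * s) := by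
  set B := ∑ S : Finset (Fin n), |c S| with hB
  have hB0 : 0 ≤ B := sum_nonneg fun S _ => abs_nonneg _
  have hw : ∀ (S : Finset (Fin n)) (x : Fin n → Bool), |w S x| = 1 := by
    intro S x
    unfold w
    rw [abs_prod]
    apply prod_eq_one
    intro i _
    unfold sg
    split_ifs <;> simp
  have hev : ∀ x, |ev c s x| ≤ B * Real.exp (s * d) := by
    intro x
    unfold ev
    refine (abs_sum_le_sum_abs _ _).trans ?_
    rw [hB, sum_mul]
    refine sum_le_sum fun S _ => ?_
    rw [abs_mul, hw, mul_one, abs_mul, abs_of_pos (Real.exp_pos _)]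
    by_cases hS : d < S.card
    · rw [hc S hS]; simp
    · apply mul_le_mul_of_nonneg_left _ (abs_nonneg _)
      apply Real.exp_le_exp.2
      apply mul_le_mul_of_nonneg_left _ hs
      exact_mod_cast not_lt.1 hS
  have hq : ∀ U, |q0 c U s| ≤ (∑ _x : Fin n → Bool, B ^ 2) * Real.exp (s * d) ^ 2 := by
    intro U
    unfold q0 co
    refine (abs_sum_le_sum_abs _ _).trans ?_
    rw [sum_mul]
    refine sum_le_sum fun x _ => ?_
    rw [abs_mul, hw, one_mul, abs_pow, ← mul_pow]
    exact pow_le_pow_left₀ (abs_nonneg _) (hev x) 2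
  unfold G0
  rw [sum_mul]
  refine sum_le_sum fun U _ => ?_
  have h1 : Ew ν k U s ≤ 1 := by
    unfold Ew
    rw [Real.exp_le_one_iff]
    have : 0 ≤ (ν + k * s) * (U.card : ℝ) := by positivity
    linarith
  have h2 : q0 c U s ^ 2 ≤ ((∑ _x : Fin n → Bool, B ^ 2) * Real.exp (s * d) ^ 2) ^ 2 := by
    rw [← sq_abs]
    exact pow_le_pow_left₀ (abs_nonneg _) (hq U) 2
  have h3 : Real.exp (4 * d * s) = (Real.exp (s * d) ^ 2) ^ 2 := by
    rw [← pow_mul, ← Real.exp_nat_mul]
    congr 1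
    push_cast
    ring
  rw [h3, ← mul_pow]
  calc Ew ν k U s * q0 c U s ^ 2 ≤ 1 * q0 c U s ^ 2 :=
        mul_le_mul_of_nonneg_right h1 (sq_nonneg _)
    _ = q0 c U s ^ 2 := one_mul _
    _ ≤ _ := h2

/-- The rate bound along lines. -/
theorem rate_line {d : ℕ} {c : Finset (Fin n) → ℝ} (hc : ∀ S, d < S.card → c S = 0)
    (hne : ∃ S, c S ≠ 0) {ν k : ℝ} (hν : 0 < ν) (hk : 0 < k) :
    G1 c ν k 0 / G0 c ν k 0 + 4 * d / k * jj ν k 0 ≤ 4 * d := by
  set A := G1 c ν k 0 / G0 c ν k 0 + 4 * d / k * jj ν k 0 with hA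
  have hpos : ∀ s, 0 < G0 c ν k s := fun s => G0_pos hne ν k s
  have hνs : ∀ s : ℝ, 0 ≤ s → 0 < ν + k * s := by
    intro s hs
    have := mul_nonneg hk.le hs
    linarith
  -- the corrected logarithmic derivative
  have hφ : ∀ s, 0 ≤ s → HasDerivAt (fun s => G1 c ν k s / G0 c ν k s + 4 * d / k * jj ν k s)
      ((G2 c ν k s * G0 c ν k s - G1 c ν k s * G1 c ν k s) / G0 c ν k s ^ 2 +
        4 * d / k * (k * (2 * Real.exp (-(ν + k * s)) / (1 - Real.exp (-(ν + k * s)) ^ 2)))) s := by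
    intro s hs
    exact ((hasDerivAt_G1 c ν k s).div (hasDerivAt_G0 c ν k s) (hpos s).ne').add
      ((hasDerivAt_jj (hνs s hs)).const_mul _)
  have hmono : MonotoneOn (fun s => G1 c ν k s / G0 c ν k s + 4 * d / k * jj ν k s)
      (Set.Ici 0) := by
    apply monotoneOn_of_deriv_nonneg (convex_Ici 0)
    · intro s hs
      exact (hφ s hs).continuousAt.continuousWithinAt
    · intro s hs
      rw [interior_Ici] at hs
      exact (hφ s (le_of_lt hs)).differentiableAt.differentiableWithinAt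
    · intro s hs
      rw [interior_Ici] at hs
      rw [(hφ s (le_of_lt hs)).deriv]
      have h1 := curv_line hc (hνs s (le_of_lt hs))
      have hG := hpos s
      set r := Real.exp (-(ν + k * s)) with hr
      have h2 : -(8 * r * d / (1 - r ^ 2)) ≤
          (G2 c ν k s * G0 c ν k s - G1 c ν k s * G1 c ν k s) / G0 c ν k s ^ 2 := by
        rw [le_div_iff₀ (by positivity)]
        have e : -(8 * r * d / (1 - r ^ 2)) * G0 c ν k s ^ 2 =
          -(8 * r * d / (1 - r ^ 2) * G0 c ν k s ^ 2) := by ring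
        rw [e]
        have e2 : G2 c ν k s * G0 c ν k s - G1 c ν k s * G1 c ν k s =
          G2 c ν k s * G0 c ν k s - G1 c ν k s ^ 2 := by ring
        rw [e2]
        exact h1
      have h3 : 4 * d / k * (k * (2 * r / (1 - r ^ 2))) = 8 * r * d / (1 - r ^ 2) := by
        have : k ≠ 0 := hk.ne'
        field_simp
        ring
      rw [h3]
      linarith
  have hlow : ∀ s, 0 ≤ s → A ≤ G1 c ν k s / G0 c ν k s := by
    intro s hs
    have h1 := hmono (Set.mem_Ici.2 (le_refl 0)) (Set.mem_Ici.2 hs) hs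
    have h2 := jj_nonpos (hνs s hs)
    have h3 : 4 * d / k * jj ν k s ≤ 0 :=
      mul_nonpos_of_nonneg_of_nonpos (by positivity) h2
    simp only at h1
    rw [hA]
    linarith
  -- the logarithm
  have hlog : ∀ s, HasDerivAt (fun s => Real.log (G0 c ν k s) - A * s)
      (G1 c ν k s / G0 c ν k s - A) s := by
    intro s
    have h1 := (hasDerivAt_G0 c ν k s).log (hpos s).ne'
    have h2 : HasDerivAt (fun s : ℝ => A * s) A s := by
      simpa using (hasDerivAt_id s).const_mul A
    exact h1.sub h2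
  have hmono2 : MonotoneOn (fun s => Real.log (G0 c ν k s) - A * s) (Set.Ici 0) := by
    apply monotoneOn_of_deriv_nonneg (convex_Ici 0)
    · intro s hs
      exact (hlog s).continuousAt.continuousWithinAt
    · intro s hs
      exact (hlog s).differentiableAt.differentiableWithinAt
    · intro s hs
      rw [interior_Ici] at hs
      rw [(hlog s).deriv]
      have := hlow s (le_of_lt hs)
      linarith
  set C0 := ∑ _U : Finset (Fin n), (∑ _x : Fin n → Bool,
      (∑ S : Finset (Fin n), |c S|) ^ 2) ^ 2 with hC0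
  have hC0nn : 0 ≤ C0 := sum_nonneg fun _ _ => sq_nonneg _
  have hup : ∀ s, 0 ≤ s → Real.log (G0 c ν k s) ≤ Real.log (C0 + 1) + 4 * d * s := by
    intro s hs
    have h1 := G0_upper hc hν.le hk.le hs
    have h2 : G0 c ν k s ≤ (C0 + 1) * Real.exp (4 * d * s) := by
      refine h1.trans ?_
      apply mul_le_mul_of_nonneg_right _ (Real.exp_pos _).le
      linarith
    have h3 := Real.log_le_log (hpos s) h2
    rw [Real.log_mul (by positivity) (Real.exp_pos _).ne', Real.log_exp] at h3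
    exact h3
  by_contra hcon
  push Not at hcon
  set δ := A - 4 * d with hδ
  have hδpos : 0 < δ := by rw [hδ]; linarith
  set E := Real.log (C0 + 1) - Real.log (G0 c ν k 0) with hE
  have hE0 : 0 ≤ E := by
    have := hup 0 (le_refl 0)
    rw [mul_zero, add_zero] at this
    rw [hE]; linarith
  set T := (E + 1) / δ with hT
  have hTpos : 0 ≤ T := by positivity
  have h1 := hmono2 (Set.mem_Ici.2 (le_refl 0)) (Set.mem_Ici.2 hTpos) hTpos
  simp only [mul_zero, sub_zero] at h1
  have h2 := hup T hTpos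
  have h3 : δ * T = E + 1 := by rw [hT]; field_simp
  have h4 : δ * T = A * T - 4 * d * T := by rw [hδ]; ring
  linarith

lemma G0_at_zero (c : Finset (Fin n) → ℝ) (ν k : ℝ) : G0 c ν k 0 = G0 c ν 0 0 := by
  unfold G0 Ew
  simp

/-- The rate bound. -/
theorem rate {d : ℕ} {c : Finset (Fin n) → ℝ} (hc : ∀ S, d < S.card → c S = 0)
    {ν k : ℝ} (hν : 0 < ν) (hk : 0 < k) :
    G1 c ν 0 0 ≤ (4 * d + 2 * d * k - 4 * d / k * jj ν k 0) * G0 c ν 0 0 := by
  by_cases hne : ∃ S, c S ≠ 0
  · have h := rate_line hc hne hν hk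
    have hG := G0_pos hne ν k 0
    have h1 : G1 c ν k 0 ≤ (4 * d - 4 * d / k * jj ν k 0) * G0 c ν k 0 := by
      have h2 : G1 c ν k 0 / G0 c ν k 0 ≤ 4 * d - 4 * d / k * jj ν k 0 := by linarith
      rwa [div_le_iff₀ hG] at h2
    have h3 : G1 c ν 0 0 - 2 * d * k * G0 c ν 0 0 ≤ G1 c ν k 0 := by
      unfold G1 G0
      rw [mul_sum, ← sum_sub_distrib]
      refine sum_le_sum fun U _ => ?_
      have e1 : Ew ν k U 0 = Ew ν 0 U 0 := by unfold Ew; simp
      rw [e1]
      have hE := Ew_pos ν 0 U 0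
      by_cases hU : 2 * d < U.card
      · rw [q0_zero hc 0 hU]; simp
      · have h4 : (U.card : ℝ) ≤ 2 * d := by exact_mod_cast not_lt.1 hU
        have h5 : 0 ≤ Ew ν 0 U 0 * q0 c U 0 ^ 2 * k := by positivity
        have h6 := mul_le_mul_of_nonneg_left h4 h5
        nlinarith
    rw [G0_at_zero c ν k] at h1
    have e : (4 * d + 2 * d * k - 4 * d / k * jj ν k 0) * G0 c ν 0 0 =
      (4 * d - 4 * d / k * jj ν k 0) * G0 c ν 0 0 + 2 * d * k * G0 c ν 0 0 := by ring
    rw [e]
    linarith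
  · push Not at hne
    have hev : ∀ s x, ev c s x = 0 := by
      intro s x
      unfold ev
      apply sum_eq_zero
      intro S _
      rw [hne S]; ring
    have hq : ∀ U s, q0 c U s = 0 := by
      intro U s
      unfold q0 co
      apply sum_eq_zero
      intro x _
      simp only [hev]
      ring
    have h1 : G1 c ν 0 0 = 0 := by
      unfold G1
      apply sum_eq_zero
      intro U _
      rw [hq]; ring
    have h2 : G0 c ν 0 0 = 0 := by
      unfold G0
      apply sum_eq_zero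
      intro U _
      rw [hq]; ring
    rw [h1, h2]; simp

end Pool.Agent.Helper54.SL
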