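import Pool.Agent.Helper54.SL.Rate
import Pool.Agent.Helper54.MB.Growth

/-!
Growth of `exp(τ N)` in `L^4`, real and complex functions of low degree.
-/

open Finset

namespace Pool.Agent.Helper54.SL

open Pool.Agent.Helper54.MB

variable {n : ℕ}

/-- The shifted coefficients. -/
noncomputable def sh (c : Finset (Fin n) → ℝ) (t : ℝ) (S : Finset (Fin n)) : ℝ :=
  c S * Real.exp (t * (S.card : ℝ))

lemma ev_sh (c : Finset (Fin n) → ℝ) (t s : ℝ) : ev (sh c t) s = ev c (t + s) := by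
  funext x
  unfold ev sh
  refine sum_congr rfl fun S _ => ?_
  rw [add_mul, Real.exp_add]
  ring

lemma G0_sh (c : Finset (Fin n) → ℝ) (ν t : ℝ) : G0 (sh c t) ν 0 0 = G0 c ν 0 t := by
  unfold G0 q0 Ew
  simp only [ev_sh, add_zero, zero_mul]

lemma G1_sh (c : Finset (Fin n) → ℝ) (ν t : ℝ) : G1 (sh c t) ν 0 0 = G1 c ν 0 t := by
  unfold G1 q0 q1 Ew
  simp only [ev_sh, add_zero, zero_mul]

/-- The rate constant. -/
noncomputable def Lam (d : ℕ) (ν k : ℝ) : ℝ := 4 * d + 2 * d * k - 4 * d / k * jj ν k 0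

lemma G0_growth {d : ℕ} {c : Finset (Fin n) → ℝ} (hc : ∀ S, d < S.card → c S = 0)
    {ν k : ℝ} (hν : 0 < ν) (hk : 0 < k) {t : ℝ} (ht : 0 ≤ t) :
    G0 c ν 0 t ≤ Real.exp (Lam d ν k * t) * G0 c ν 0 0 := by
  set L := Lam d ν k with hL
  have hder : ∀ s, HasDerivAt (fun s => G0 c ν 0 s * Real.exp (-L * s))
      (G1 c ν 0 s * Real.exp (-L * s) + G0 c ν 0 s * (Real.exp (-L * s) * (-L))) s := by
    intro s
    have h3 : HasDerivAt (fun t : ℝ => -L * t) (-L) s := by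
      simpa using (hasDerivAt_id s).const_mul (-L)
    exact (hasDerivAt_G0 c ν 0 s).mul h3.exp
  have hanti : Antitone (fun s => G0 c ν 0 s * Real.exp (-L * s)) := by
    apply antitone_of_deriv_nonpos (fun s => (hder s).differentiableAt)
    intro s
    rw [(hder s).deriv]
    have hcs : ∀ S, d < S.card → sh c s S = 0 := by
      intro S hS
      unfold sh
      rw [hc S hS, zero_mul]
    have h1 := rate hcs hν hk
    rw [G0_sh, G1_sh] at h1
    have h2 : G1 c ν 0 s ≤ L * G0 c ν 0 s := h1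
    have h3 := Real.exp_pos (-L * s)
    nlinarith
  have h4 := hanti ht
  simp only [mul_zero, Real.exp_zero, mul_one] at h4
  have h5 : G0 c ν 0 t = G0 c ν 0 t * Real.exp (-L * t) * Real.exp (L * t) := by
    rw [mul_assoc, ← Real.exp_add]
    simp
  rw [h5, mul_comm (Real.exp (L * t))]
  exact mul_le_mul_of_nonneg_right h4 (Real.exp_pos _).le

lemma Kr_one (x y : Fin n → Bool) : Kr 1 (x, y) = if x = y then (2 : ℝ) ^ n else 0 := by
  unfold Kr ss
  by_cases h : x = y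
  · subst h
    rw [if_pos rfl]
    simp only [sg_sq]
    norm_num
  · rw [if_neg h]
    have : ∃ i, x i ≠ y i := by
      by_contra hcon
      push Not at hcon
      exact h (funext hcon)
    obtain ⟨i, hi⟩ := this
    apply prod_eq_zero (mem_univ i)
    simp only
    have : sg (x i) * sg (y i) = -1 := by
      unfold sg
      cases hx : x i <;> cases hy : y i <;> simp_all
    rw [this]; norm_num

lemma sum_q0_sq (c : Finset (Fin n) → ℝ) (s : ℝ) :
    ∑ U : Finset (Fin n), q0 c U s ^ 2 = 2 ^ n * ∑ x, ev c s x ^ 4 := by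
  have h := bf_co 1 (fun x => ev c s x ^ 2) (fun x => ev c s x ^ 2)
  have h1 : ∑ U : Finset (Fin n), q0 c U s ^ 2 = ∑ U : Finset (Fin n), (1 : ℝ) ^ U.card *
      (co U (fun x => ev c s x ^ 2) * co U (fun x => ev c s x ^ 2)) := by
    refine sum_congr rfl fun U _ => ?_
    unfold q0
    rw [one_pow]; ring
  rw [h1, h, Fintype.sum_prod_type, mul_sum]
  refine sum_congr rfl fun x _ => ?_
  simp only [Kr_one]
  rw [Finset.sum_eq_single x]
  · rw [if_pos rfl]; ring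
  · intro y _ hy
    rw [if_neg (Ne.symm hy), zero_mul]
  · intro h; exact absurd (mem_univ x) h

lemma G0_le {c : Finset (Fin n) → ℝ} {ν : ℝ} (hν : 0 ≤ ν) (s : ℝ) :
    G0 c ν 0 s ≤ 2 ^ n * ∑ x, ev c s x ^ 4 := by
  rw [← sum_q0_sq]
  unfold G0
  refine sum_le_sum fun U _ => ?_
  have h1 : Ew ν 0 U s ≤ 1 := by
    unfold Ew
    rw [Real.exp_le_one_iff, zero_mul, add_zero]
    have : 0 ≤ ν * (U.card : ℝ) := by positivity
    linarith
  calc Ew ν 0 U s * q0 c U s ^ 2 ≤ 1 * q0 c U s ^ 2 := mul_le_mul_of_nonneg_right h1 (sq_nonneg _)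
    _ = _ := one_mul _

lemma le_G0 {d : ℕ} {c : Finset (Fin n) → ℝ} (hc : ∀ S, d < S.card → c S = 0) {ν : ℝ}
    (hν : 0 ≤ ν) (s : ℝ) :
    2 ^ n * ∑ x, ev c s x ^ 4 ≤ Real.exp (2 * d * ν) * G0 c ν 0 s := by
  rw [← sum_q0_sq]
  unfold G0
  rw [mul_sum]
  refine sum_le_sum fun U _ => ?_
  by_cases hU : 2 * d < U.card
  · rw [q0_zero hc s hU]; simp
  · have h4 : (U.card : ℝ) ≤ 2 * d := by exact_mod_cast not_lt.1 hU
    have h1 : 1 ≤ Real.exp (2 * d * ν) * Ew ν 0 U s := by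
      unfold Ew
      rw [← Real.exp_add, Real.one_le_exp_iff, zero_mul, add_zero]
      have := mul_le_mul_of_nonneg_left h4 hν
      linarith
    rw [← mul_assoc]
    calc q0 c U s ^ 2 = 1 * q0 c U s ^ 2 := (one_mul _).symm
      _ ≤ _ := mul_le_mul_of_nonneg_right h1 (sq_nonneg _)

/-- Growth in `L^4` for real functions. -/
theorem real_growth {d : ℕ} {c : Finset (Fin n) → ℝ} (hc : ∀ S, d < S.card → c S = 0)
    {ν k : ℝ} (hν : 0 < ν) (hk : 0 < k) {t : ℝ} (ht : 0 ≤ t) :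
    ∑ x, ev c t x ^ 4 ≤ Real.exp (2 * d * ν + Lam d ν k * t) * ∑ x, ev c 0 x ^ 4 := by
  have h1 := le_G0 hc hν.le t
  have h2 := G0_growth hc hν hk ht
  have h3 := G0_le (c := c) hν.le 0
  have h4 := Real.exp_pos (2 * d * ν)
  have h5 := Real.exp_pos (Lam d ν k * t)
  have h6 : (2 : ℝ) ^ n * ∑ x, ev c t x ^ 4 ≤
      2 ^ n * (Real.exp (2 * d * ν + Lam d ν k * t) * ∑ x, ev c 0 x ^ 4) := by
    rw [Real.exp_add]
    calc (2 : ℝ) ^ n * ∑ x, ev c t x ^ 4 ≤ Real.exp (2 * d * ν) * G0 c ν 0 t := h1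
      _ ≤ Real.exp (2 * d * ν) * (Real.exp (Lam d ν k * t) * G0 c ν 0 0) :=
        mul_le_mul_of_nonneg_left h2 h4.le
      _ ≤ Real.exp (2 * d * ν) * (Real.exp (Lam d ν k * t) * (2 ^ n * ∑ x, ev c 0 x ^ 4)) :=
        mul_le_mul_of_nonneg_left (mul_le_mul_of_nonneg_left h3 h5.le) h4.le
      _ = _ := by ring
  exact le_of_mul_le_mul_left h6 (by positivity)

/-- Growth in `L^4` for complex functions. -/
theorem complex_growth {d : ℕ} {c : Finset (Fin n) → ℂ} (hc : ∀ S, d < S.card → c S = 0)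
    {ν k : ℝ} (hν : 0 < ν) (hk : 0 < k) {t : ℝ} (ht : 0 ≤ t) :
    Nm 2 (evo c (t : ℂ)) ≤ Real.exp (2 * d * ν + Lam d ν k * t) * Nm 2 (evo c 0) := by
  set a : Finset (Fin n) → ℝ := fun S => (c S).re with ha
  set b : Finset (Fin n) → ℝ := fun S => (c S).im with hb
  have hev : ∀ (s : ℝ) (x : Fin n → Bool),
      evo c (s : ℂ) x = (ev a s x : ℂ) + (ev b s x : ℂ) * Complex.I := by
    intro s x
    unfold evo ev
    rw [Complex.ofReal_sum, Complex.ofReal_sum, sum_mul, ← sum_add_distrib]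
    refine sum_congr rfl fun S _ => ?_
    have h1 : c S = ((c S).re : ℂ) + ((c S).im : ℂ) * Complex.I := (Complex.re_add_im (c S)).symm
    have h2 : Complex.exp ((s : ℂ) * (S.card : ℂ)) = ((Real.exp (s * (S.card : ℝ)) : ℝ) : ℂ) := by
      push_cast; rfl
    rw [h2, ← w_cast]
    conv_lhs => rw [h1]
    simp only [ha, hb]
    push_cast
    ring
  have hnorm : ∀ (s : ℝ) (x : Fin n → Bool),
      ‖evo c (s : ℂ) x‖ ^ (2 * 2) = (ev a s x ^ 2 + ev b s x ^ 2) ^ 2 := by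
    intro s x
    rw [pow_mul, hev, ← Complex.normSq_eq_norm_sq, Complex.normSq_add_mul_I]
  -- linearity of `ev`
  have hlin : ∀ (α β s : ℝ) (x : Fin n → Bool),
      ev (fun S => α * a S + β * b S) s x = α * ev a s x + β * ev b s x := by
    intro α β s x
    unfold ev
    rw [mul_sum, mul_sum, ← sum_add_distrib]
    refine sum_congr rfl fun S _ => ?_
    ring
  have hsupp : ∀ (α β : ℝ) (S : Finset (Fin n)), d < S.card →
      (fun S => α * a S + β * b S) S = 0 := by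
    intro α β S hS
    simp only [ha, hb, hc S hS]
    simp
  set γ := Real.sqrt 3 / 2 with hγ
  have hγ2 : γ ^ 2 = 3 / 4 := by
    rw [hγ, div_pow, Real.sq_sqrt (by norm_num)]; norm_num
  have hγ4 : γ ^ 4 = 9 / 16 := by
    have : γ ^ 4 = (γ ^ 2) ^ 2 := by ring
    rw [this, hγ2]; norm_num
  have hid : ∀ p q : ℝ, (p ^ 2 + q ^ 2) ^ 2 = 8 / 9 * ((1 * p + 0 * q) ^ 4 +
      (1 / 2 * p + γ * q) ^ 4 + (1 / 2 * p + (-γ) * q) ^ 4) := by
    intro p q
    have : 8 / 9 * ((1 * p + 0 * q) ^ 4 + (1 / 2 * p + γ * q) ^ 4 + (1 / 2 * p + (-γ) * q) ^ 4) =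
        8 / 9 * (p ^ 4 + 1 / 8 * p ^ 4 + 3 * p ^ 2 * q ^ 2 * γ ^ 2 + 2 * q ^ 4 * γ ^ 4) := by ring
    rw [this, hγ2, hγ4]
    ring
  have hsum : ∀ s : ℝ, Nm 2 (evo c (s : ℂ)) = 8 / 9 *
      (∑ x, ev (fun S => 1 * a S + 0 * b S) s x ^ 4 +
        ∑ x, ev (fun S => 1 / 2 * a S + γ * b S) s x ^ 4 +
        ∑ x, ev (fun S => 1 / 2 * a S + (-γ) * b S) s x ^ 4) := by
    intro s
    unfold Nm
    rw [← sum_add_distrib, ← sum_add_distrib, mul_sum]
    refine sum_congr rfl fun x _ => ?_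
    rw [hnorm, hid, hlin, hlin, hlin]
  have h0 := hsum 0
  rw [Complex.ofReal_zero] at h0
  rw [hsum t, h0]
  have g1 := real_growth (hsupp 1 0) hν hk ht
  have g2 := real_growth (hsupp (1 / 2) γ) hν hk ht
  have g3 := real_growth (hsupp (1 / 2) (-γ)) hν hk ht
  linarith

end Pool.Agent.Helper54.SL
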